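import Pool.Agent.T2H41.CL.Stm

/-!
Assembly of project CL.
-/

set_option autoImplicit false

namespace Pool.Agent.T2H41.CL

open MvPolynomial Matrix

theorem ev_mul {n : ℕ} (x : M n) (f g : P n) : ev x (f * g) = ev x f * ev x g := by
  simp [ev]

theorem T_EQ (hVG : S_VG) (hNF : S_NF) (hYB : S_YB) (hYC : S_YC) (hEMB : S_EMB) (hSTB : S_STB) :
    S_EQ := by
  intro x hx hh0
  constructor
  · intro h i
    exact h.2 (eqs i) fun s hs => hVG s hs i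
  · intro h
    obtain ⟨k, b, A, D, hk, hb, hA, hD, hxe, h0, h1, h2, h3⟩ := hNF x hx hh0 fun i _ => h i
    rw [hxe]
    refine (hSTB 7 4 gam).1 k b _ hk hb (hEMB A D (hYB A hA ?_) (hYC D hD))
    rw [h0, h1, h2, h3]
    have h6 := h 6
    simp only [eqs, ev, d2] at h6
    simp at h6
    linear_combination h6

theorem T_ALF (hNF : S_NF) (hYC : S_YC) (hEMA : S_EMA) (hSTB : S_STB) : S_ALF := by
  intro x hx hh0 h x0 x1 x2 x3
  obtain ⟨k, b, A, D, hk, hb, hA, hD, hxe, h0, h1, h2, h3⟩ := hNF x hx hh0 fun i _ => h i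
  rw [hxe]
  refine (hSTB 7 4 alp).1 k b _ hk hb (hEMA A D hA ?_ ?_ ?_ ?_ (hYC D hD))
  · rw [h0, x0]
  · rw [h1, x1]
  · rw [h2, x2]
  · rw [h3, x3]

theorem T_FIN (hREP : S_REP) (hIRR : S_IRR) (hEQ : S_EQ) (hALF : S_ALF) (hSTB : S_STB)
    (hLNS : S_LNS) (hBAS : S_BAS) (hEQV : S_EQV) (hOPN : S_OPN) (hIND : S_IND) : S_FIN := by
  obtain ⟨-, hra, -, -, hdg, hda, -, -⟩ := hREP
  obtain ⟨hha, hdet, -, hlin⟩ := hLNS
  have hrep : rep 4 alp = a0 := hra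
  -- `a0` is in both closures
  have ha0 : a0 ∈ Y 4 gam := by
    rw [hEQ a0 hdet hha]
    intro i
    have h1 := hlin (0, 0) (by decide) 0 i
    rwa [zero_smul, add_zero] at h1
  have ha1 : a0 ∈ Y 4 alp := by
    have h1 := ((hSTB 7 4 alp).2.2 hda)
    rw [← hrep]
    exact h1.1 h1.2
  have hinv : ∀ k b : M 7, IsK 4 k → IsB b → ∀ z, z ∈ Y 4 gam ↔ k * z * b ∈ Y 4 gam :=
    fun k b hk hb z => ⟨(hSTB 7 4 gam).1 k b z hk hb, (hSTB 7 4 gam).2.1 k b z hk hb⟩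
  have horb : ∀ s ∈ Orb 4 alp, s ∈ Y 4 gam := by
    rintro s ⟨k, b, hk, hb, rfl⟩
    rw [hrep]
    exact (hSTB 7 4 gam).1 k b a0 hk hb ha0
  have hsub : ∀ x ∈ Y 4 alp, x ∈ Y 4 gam := fun x hx =>
    ⟨hx.1, fun f hf => hx.2 f fun s hs => (horb s hs).2 f hf⟩
  -- the points of the orbit are singular
  have hsing : ∀ s ∈ Orb 4 alp, ¬ Nonsing (Y 4 gam) s := by
    rintro s ⟨k, b, hk, hb, rfl⟩ hs
    rw [hrep] at hs
    have hk' : k⁻¹ * k = 1 := Matrix.nonsing_inv_mul k hk.1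
    have hk'' : k * k⁻¹ = 1 := Matrix.mul_nonsing_inv k hk.1
    have hb' : b * b⁻¹ = 1 := Matrix.mul_nonsing_inv b hb.1
    have hb'' : b⁻¹ * b = 1 := Matrix.nonsing_inv_mul b hb.1
    have h1 := hEQV 7 (Y 4 gam) k⁻¹ b⁻¹ (Matrix.isUnit_nonsing_inv_det k hk.1)
      (Matrix.isUnit_nonsing_inv_det b hb.1) (fun z => by
        rw [hinv k b hk hb (k⁻¹ * z * b⁻¹)]
        have e1 : k * (k⁻¹ * z * b⁻¹) * b = z := by
          rw [← Matrix.mul_assoc, ← Matrix.mul_assoc, hk'', Matrix.one_mul, Matrix.mul_assoc, hb'',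
            Matrix.mul_one]
        rw [e1]) _ hs
    apply hBAS
    have e2 : k⁻¹ * (k * a0 * b) * b⁻¹ = a0 := by
      rw [Matrix.mul_assoc k a0 b, ← Matrix.mul_assoc, hk', Matrix.one_mul, Matrix.mul_assoc, hb',
        Matrix.mul_one]
    rwa [e2] at h1
  refine ⟨hIRR 7 4 alp hda, fun x hx => ⟨hsub x hx, fun hn => ?_⟩, fun C hC hYC hCS => ?_⟩
  · obtain ⟨c, f, h, hh1, hf, hli⟩ := hn
    obtain ⟨g, hg, hg'⟩ := hOPN 7 c f x hli
    have h1 : ev x (h * g) ≠ 0 := by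
      rw [ev_mul]
      exact mul_ne_zero hh1 hg
    have h2 : ∃ s ∈ Orb 4 alp, ev s (h * g) ≠ 0 := by
      by_contra hc
      push Not at hc
      exact h1 (hx.2 _ hc)
    obtain ⟨s, hs, hs'⟩ := h2
    rw [ev_mul] at hs'
    exact hsing s hs ⟨c, f, h, left_ne_zero_of_mul hs', hf, hg' s (right_ne_zero_of_mul hs')⟩
  · refine Set.Subset.antisymm (fun x hx => ⟨hC.2.1 x hx, fun f hf => ?_⟩) hYC
    have h1 : ∀ z ∈ C, ev z f * ev z hh = 0 := by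
      intro z hz
      by_cases h2 : ev z hh = 0
      · rw [h2, mul_zero]
      · have h3 := hCS hz
        have h4 := (hEQ z (hC.2.1 z hz) h2).1 h3.1
        have h5 : z 4 0 = 0 ∧ z 4 1 = 0 ∧ z 5 0 = 0 ∧ z 5 1 = 0 := by
          by_contra h6
          exact h3.2 ⟨7, eqs, hh, h2, fun w hw hw' => hEQ w hw hw', hIND z h2 h6⟩
        have h6 := hALF z (hC.2.1 z hz) h2 h4 h5.1 h5.2.1 h5.2.2.1 h5.2.2.2
        rw [h6.2 f hf, zero_mul]
    rcases hC.2.2.2 f hh h1 with h2 | h2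
    · exact h2 x hx
    · exact absurd (h2 a0 (hYC ha1)) hha

end Pool.Agent.T2H41.CL
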