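import Mathlib

/-!
# Clans, orbits and the singular loci of the orbit closures

`K = GL_p × GL_q` acts on the flag variety `G / B`, `G = GL_n (ℂ)`, `n = p + q`. Subsets of `G / B` are
given by their preimages in `G`, which are sets of invertible matrices stable under the right
multiplication by `B`; the columns of a matrix are a basis of `ℂ^n` adapted to the flag.
-/

set_option autoImplicit false

namespace Pool.Agent.T2H41.CL

/-- The letters of a clan: `+`, `-` or a natural number. -/
inductive Letter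
  | plus
  | minus
  | num (k : ℕ)
  deriving DecidableEq

/-- Strings of length `n`. -/
abbrev Str (n : ℕ) : Type := Fin n → Letter

/-- `γ` is a `(p, q)`-clan: every natural number in `γ` occurs exactly twice, and the number of the `+`
minus the number of the `-` is `p - q`. -/
def IsClan (p q : ℕ) (γ : Str (p + q)) : Prop :=
  (∀ (i : Fin (p + q)) (k : ℕ), γ i = .num k → ∃! j, j ≠ i ∧ γ j = .num k) ∧
  (((Finset.univ.filter fun i => γ i = .plus).card : ℤ) -
    ((Finset.univ.filter fun i => γ i = .minus).card : ℤ) = (p : ℤ) - q)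

/-- The pair of the positions `i < j` is an arc of `γ`. -/
def Arc {n : ℕ} (γ : Str n) (i j : Fin n) : Prop :=
  i < j ∧ γ i = γ j ∧ γ i ≠ .plus ∧ γ i ≠ .minus

instance {n : ℕ} (γ : Str n) (i j : Fin n) : Decidable (Arc γ i j) := by
  unfold Arc
  infer_instance

/-- `i` is the left end of an arc -/
def Opens {n : ℕ} (γ : Str n) (i : Fin n) : Prop := ∃ j, Arc γ i j

instance {n : ℕ} (γ : Str n) (i : Fin n) : Decidable (Opens γ i) := by
  unfold Opens
  infer_instance

/-- the number of the signs `+` and of the left ends of arcs before the position `i` -/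
def posA {n : ℕ} (γ : Str n) (i : Fin n) : ℕ :=
  (Finset.univ.filter fun l => l < i ∧ (γ l = .plus ∨ Opens γ l)).card

/-- the number of the signs `-` and of the left ends of arcs before the position `i` -/
def posB {n : ℕ} (γ : Str n) (i : Fin n) : ℕ :=
  (Finset.univ.filter fun l => l < i ∧ (γ l = .minus ∨ Opens γ l)).card

/-- The matrix of the flag of the clan `γ` (Matsuki-Oshima, Yamamoto). Let `e_0, …, e_(n-1)` be the
standard basis. To the signs `+` and to the arcs one assigns different vectors `e_a`, `a < p`, to the signs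
`-` and to the arcs one assigns different vectors `e_b`, `b ≥ p`. The `i`-th vector of the basis is `e_a`
at a sign `+`, `e_b` at a sign `-`, `e_a + e_b` at the left end of an arc, and `e_a - e_b` at its right
end. -/
def rep {n : ℕ} (p : ℕ) (γ : Str n) : Matrix (Fin n) (Fin n) ℂ := fun r i =>
  if γ i = .plus then (if (r : ℕ) = posA γ i then 1 else 0)
  else if γ i = .minus then (if (r : ℕ) = p + posB γ i then 1 else 0)
  else if Opens γ i then
    (if (r : ℕ) = posA γ i then 1 else 0) + (if (r : ℕ) = p + posB γ i then 1 else 0)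
  else ∑ l, if Arc γ l i then
    ((if (r : ℕ) = posA γ l then 1 else 0) - (if (r : ℕ) = p + posB γ l then 1 else 0)) else 0

/-- `k` is in `K = GL_p × GL_(n - p)`, embedded block-diagonally. -/
def IsK {n : ℕ} (p : ℕ) (k : Matrix (Fin n) (Fin n) ℂ) : Prop :=
  IsUnit k.det ∧ ∀ i j : Fin n, ¬ ((i : ℕ) < p ↔ (j : ℕ) < p) → k i j = 0

/-- `b` is in the upper triangular Borel subgroup. -/
def IsB {n : ℕ} (b : Matrix (Fin n) (Fin n) ℂ) : Prop :=
  IsUnit b.det ∧ ∀ i j : Fin n, j < i → b i j = 0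

/-- The (preimage in `G` of the) orbit of the clan `γ`. -/
def Orb {n : ℕ} (p : ℕ) (γ : Str n) : Set (Matrix (Fin n) (Fin n) ℂ) :=
  {x | ∃ k b : Matrix (Fin n) (Fin n) ℂ, IsK p k ∧ IsB b ∧ x = k * rep p γ * b}

/-- The value of the polynomial `f` in the entries at the matrix `x`. -/
noncomputable def ev {n : ℕ} (x : Matrix (Fin n) (Fin n) ℂ) (f : MvPolynomial (Fin n × Fin n) ℂ) : ℂ :=
  MvPolynomial.eval (fun s => x s.1 s.2) f

/-- The (preimage in `G` of the) Zariski closure of the orbit of the clan `γ`. -/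
def Y {n : ℕ} (p : ℕ) (γ : Str n) : Set (Matrix (Fin n) (Fin n) ℂ) :=
  {x | IsUnit x.det ∧ ∀ f : MvPolynomial (Fin n × Fin n) ℂ, (∀ s ∈ Orb p γ, ev s f = 0) → ev x f = 0}

/-- The closed set `Z` of invertible matrices is nonsingular at `x`: in a Zariski open neighbourhood
`h ≠ 0` of `x` it is given by `c` equations `f i = 0` with linearly independent differentials at `x`. -/
def Nonsing {n : ℕ} (Z : Set (Matrix (Fin n) (Fin n) ℂ)) (x : Matrix (Fin n) (Fin n) ℂ) : Prop :=
  ∃ (c : ℕ) (f : Fin c → MvPolynomial (Fin n × Fin n) ℂ) (h : MvPolynomial (Fin n × Fin n) ℂ),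
    ev x h ≠ 0 ∧
    (∀ z : Matrix (Fin n) (Fin n) ℂ, IsUnit z.det → ev z h ≠ 0 → (z ∈ Z ↔ ∀ i, ev z (f i) = 0)) ∧
    LinearIndependent ℂ (fun (i : Fin c) (s : Fin n × Fin n) => ev x (MvPolynomial.pderiv s (f i)))

/-- The (preimage of the) singular locus of the closure of the orbit of the clan `γ`. -/
def SingLocus {n : ℕ} (p : ℕ) (γ : Str n) : Set (Matrix (Fin n) (Fin n) ℂ) :=
  {x | x ∈ Y p γ ∧ ¬ Nonsing (Y p γ) x}

/-- `C` is an irreducible Zariski closed set of invertible matrices. -/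
def IsIrr {n : ℕ} (C : Set (Matrix (Fin n) (Fin n) ℂ)) : Prop :=
  C.Nonempty ∧ (∀ x ∈ C, IsUnit x.det) ∧
  (∀ x : Matrix (Fin n) (Fin n) ℂ, IsUnit x.det →
    (∀ f : MvPolynomial (Fin n × Fin n) ℂ, (∀ s ∈ C, ev s f = 0) → ev x f = 0) → x ∈ C) ∧
  ∀ f g : MvPolynomial (Fin n × Fin n) ℂ, (∀ x ∈ C, ev x f * ev x g = 0) →
    (∀ x ∈ C, ev x f = 0) ∨ ∀ x ∈ C, ev x g = 0

/-- `C` is an irreducible component of `S`. -/
def IsComponent {n : ℕ} (C S : Set (Matrix (Fin n) (Fin n) ℂ)) : Prop :=
  IsIrr C ∧ C ⊆ S ∧ ∀ C' : Set (Matrix (Fin n) (Fin n) ℂ), IsIrr C' → C ⊆ C' → C' ⊆ S → C' = C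

/-- the clan `1 + - 1 2 + 2` -/
def gam : Str 7 := ![.num 1, .plus, .minus, .num 1, .num 2, .plus, .num 2]
/-- the clan `+ + - - 2 + 2` -/
def alp : Str 7 := ![.plus, .plus, .minus, .minus, .num 2, .plus, .num 2]
/-- the clan `1 + - 1` -/
def gam4 : Str 4 := ![.num 1, .plus, .minus, .num 1]
/-- the clan `2 + 2` -/
def gam3 : Str 3 := ![.num 2, .plus, .num 2]

end Pool.Agent.T2H41.CL
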