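import Pool.Agent.T2H41.CL.Stm

set_option autoImplicit false

namespace Pool.Agent.T2H41.CL

open MvPolynomial Matrix

lemma BAS_mul {n : ℕ} (x : M n) (a b : P n) : ev x (a * b) = ev x a * ev x b := by
  unfold ev; exact map_mul _ _ _

lemma BAS_zero (t : M 7) : a0 + (0 : ℂ) • t = a0 := by
  rw [zero_smul, add_zero]

theorem T_BAS (hEQ : S_EQ) (hLIN : S_LIN) (hOPN : S_OPN) (hIFT : S_IFT) (hLA : S_LA)
    (hIND : S_IND) (hLNS : S_LNS) : S_BAS := by
  rintro ⟨c, f, h, hh0, hZ, hli⟩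
  obtain ⟨l1, l2, l3, l4⟩ := hLNS
  obtain ⟨linD, lin⟩ := hLIN
  have hdet0 : a0.det ≠ 0 := l2.ne_zero
  -- points of the lines are in the closure
  have hline : ∀ s : Fin 7 × Fin 7, s ∉ Excl → ∀ t : ℂ,
      (a0 + t • Matrix.single s.1 s.2 (1 : ℂ)).det ≠ 0 →
      ev (a0 + t • Matrix.single s.1 s.2 (1 : ℂ)) hh ≠ 0 →
      a0 + t • Matrix.single s.1 s.2 (1 : ℂ) ∈ Y 4 gam := by
    intro s hs t h1 h2
    exact (hEQ _ (isUnit_iff_ne_zero.2 h1) h2).2 (l4 s hs t)
  have hc6 : c ≤ 6 := by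
    have hx := (hLA 7 c 0 (fun i s => ev a0 (pderiv s (f i)))).2 hli Excl ?_
    · exact hx
    · intro i s hs
      have h0 : ∃ t : ℂ, ev (a0 + t • Matrix.single s.1 s.2 (1 : ℂ)) (detP 7 * hh * h) ≠ 0 := by
        refine ⟨0, ?_⟩
        rw [BAS_zero, BAS_mul, BAS_mul, linD]
        exact mul_ne_zero (mul_ne_zero hdet0 l1) hh0
      have h1 := ((lin 7 a0 (Matrix.single s.1 s.2 (1 : ℂ)) (detP 7 * hh * h) h0).2 (f i) ?_).2
      · rw [Finset.sum_eq_single s] at h1
        · simpa using h1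
        · intro b _ hb
          have : (Matrix.single s.1 s.2 (1 : ℂ)) b.1 b.2 = 0 := by
            rw [Matrix.single_apply, if_neg]
            rintro ⟨e1, e2⟩
            exact hb (Prod.ext e1.symm e2.symm)
          rw [this, mul_zero]
        · intro hb; exact absurd (Finset.mem_univ _) hb
      · intro t ht
        rw [BAS_mul, BAS_mul, linD] at ht
        have t1 := left_ne_zero_of_mul (left_ne_zero_of_mul ht)
        have t2 := right_ne_zero_of_mul (left_ne_zero_of_mul ht)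
        have t3 := right_ne_zero_of_mul ht
        exact (hZ _ (isUnit_iff_ne_zero.2 t1) t3).1 (hline s hs t t1 t2) i
  have hc7 : 7 ≤ c := by
    obtain ⟨g, hg, hgop⟩ := hOPN 7 c f a0 hli
    have hs40 : ((4, 0) : Fin 7 × Fin 7) ∉ Excl := by decide
    have h0 : ∃ t : ℂ, ev (a0 + t • Matrix.single (4 : Fin 7) (0 : Fin 7) (1 : ℂ))
        (detP 7 * hh * h * g) ≠ 0 := by
      refine ⟨0, ?_⟩
      rw [BAS_zero, BAS_mul, BAS_mul, BAS_mul, linD]
      exact mul_ne_zero (mul_ne_zero (mul_ne_zero hdet0 l1) hh0) hg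
    obtain ⟨t, ht0, ht⟩ := (lin 7 a0 (Matrix.single (4 : Fin 7) (0 : Fin 7) (1 : ℂ))
      (detP 7 * hh * h * g) h0).1 {0}
    rw [Finset.mem_singleton] at ht0
    rw [BAS_mul, BAS_mul, BAS_mul, linD] at ht
    have t4 := right_ne_zero_of_mul ht
    have ht' := left_ne_zero_of_mul ht
    have t1 := left_ne_zero_of_mul (left_ne_zero_of_mul ht')
    have t2 := right_ne_zero_of_mul (left_ne_zero_of_mul ht')
    have t3 := right_ne_zero_of_mul ht'
    set z : M 7 := a0 + t • Matrix.single (4 : Fin 7) (0 : Fin 7) (1 : ℂ) with hz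
    have hzY : z ∈ Y 4 gam := hline (4, 0) hs40 t t1 t2
    have hzf : ∀ i, ev z (f i) = 0 := (hZ z (isUnit_iff_ne_zero.2 t1) t3).1 hzY
    have hz40 : z 4 0 = t := l3 t
    have hind := hIND z t2 (by
      rintro ⟨h1, -⟩
      rw [hz40] at h1
      exact ht0 h1)
    have hliz := hgop z t4
    refine (hLA 7 c 7 (fun i s => ev z (pderiv s (f i)))).1
      (fun (i : Fin 7) (s : Fin 7 × Fin 7) => ev z (pderiv s (eqs i))) hind ?_
    intro v hv j
    refine hIFT 7 c f (h * hh) (eqs j) z (isUnit_iff_ne_zero.2 t1) ?_ hzf hliz ?_ v hv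
    · rw [BAS_mul]; exact mul_ne_zero t3 t2
    · intro w hw1 hw2 hw3
      rw [BAS_mul] at hw2
      have w3 := left_ne_zero_of_mul hw2
      have w2 := right_ne_zero_of_mul hw2
      exact (hEQ w hw1 w2).1 ((hZ w hw1 w3).2 hw3) j
  omega

end Pool.Agent.T2H41.CL
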