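import Pool.Agent.T2H41.CL.Stm

/-!
The strings are clans.
-/

set_option autoImplicit false

namespace Pool.Agent.T2H41.CL

theorem T_CLN : S_CLN := by
  refine ⟨⟨?_, ?_⟩, ⟨?_, ?_⟩, ?_⟩
  · intro i k hk
    change (gam : Fin 7 → Letter) i = .num k at hk
    change ∃! j : Fin 7, j ≠ i ∧ gam j = .num k
    have hk' : gam i = .num k := hk
    fin_cases i
    · have e : k = 1 := by
        have := hk'
        simp [gam] at this
        omega
      subst e
      refine ⟨3, by decide, by decide⟩
    · simp [gam] at hk'
    · simp [gam] at hk'
    · have e : k = 1 := by
        have := hk'
        simp [gam] at this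
        omega
      subst e
      refine ⟨0, by decide, by decide⟩
    · have e : k = 2 := by
        have := hk'
        simp [gam] at this
        omega
      subst e
      refine ⟨6, by decide, by decide⟩
    · simp [gam] at hk'
    · have e : k = 2 := by
        have := hk'
        simp [gam] at this
        omega
      subst e
      refine ⟨4, by decide, by decide⟩
  · decide
  · intro i k hk
    change ∃! j : Fin 7, j ≠ i ∧ alp j = .num k
    have hk' : alp i = .num k := hk
    fin_cases i
    · simp [alp] at hk'
    · simp [alp] at hk'
    · simp [alp] at hk'
    · simp [alp] at hk'
    · have e : k = 2 := by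
        have := hk'
        simp [alp] at this
        omega
      subst e
      refine ⟨6, by decide, by decide⟩
    · simp [alp] at hk'
    · have e : k = 2 := by
        have := hk'
        simp [alp] at this
        omega
      subst e
      refine ⟨4, by decide, by decide⟩
  · decide
  · decide

end Pool.Agent.T2H41.CL
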