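import Pool.Agent.T2H41.CL.Stm

/-!
# Package EMA: the embedding into the closure of the orbit of `alp`
-/

set_option autoImplicit false

namespace Pool.Agent.T2H41.CL

open MvPolynomial Matrix

/-- the embedding over any type with a zero -/
def EMA_g {R : Type} [Zero R] (A : Fin 4 → Fin 4 → R) (D : Fin 3 → Fin 3 → R) : Matrix (Fin 7) (Fin 7) R :=
  !![A 0 0, A 0 1, A 0 2, A 0 3, 0, 0, 0;
     A 1 0, A 1 1, A 1 2, A 1 3, 0, 0, 0;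
     0, 0, 0, 0, D 0 0, D 0 1, D 0 2;
     0, 0, 0, 0, D 1 0, D 1 1, D 1 2;
     A 2 0, A 2 1, A 2 2, A 2 3, 0, 0, 0;
     A 3 0, A 3 1, A 3 2, A 3 3, 0, 0, 0;
     0, 0, 0, 0, D 2 0, D 2 1, D 2 2]

lemma EMA_map {R S : Type} [Zero R] [Zero S] (φ : R → S) (h0 : φ 0 = 0) (A : Fin 4 → Fin 4 → R)
    (D : Fin 3 → Fin 3 → R) (i j : Fin 7) :
    φ (EMA_g A D i j) = EMA_g (fun a b => φ (A a b)) (fun a b => φ (D a b)) i j := by
  fin_cases i <;> fin_cases j <;> first | rfl | exact h0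

lemma EMA_subD (A : M 4) (f : P 7) : ∃ g : P 3, ∀ D : M 3, ev D g = ev (emb A D) f := by
  refine ⟨bind₁ (fun s : Fin 7 × Fin 7 => EMA_g (fun a b => C (A a b)) (fun a b => (X (a, b) : P 3)) s.1 s.2) f,
    fun D => ?_⟩
  unfold ev
  change eval₂Hom (RingHom.id ℂ) _ (bind₁ _ f) = eval₂Hom (RingHom.id ℂ) _ f
  rw [eval₂Hom_bind₁]
  congr 2
  funext s
  rw [EMA_map _ (map_zero _)]
  simp only [eval₂Hom_C, eval₂Hom_X', RingHom.id_apply]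
  rfl

/-- the part of `A` in `K` -/
def EMA_k (A : M 4) : M 4 :=
  !![A 0 0, A 0 1, 0, 0; A 1 0, A 1 1, 0, 0; 0, 0, A 2 2, A 2 3; 0, 0, A 3 2, A 3 3]

/-- the part of `A` in `B` -/
noncomputable def EMA_b (A : M 4) : M 4 :=
  !![1, 0, (A 1 1 * A 0 2 - A 0 1 * A 1 2) / (A 0 0 * A 1 1 - A 0 1 * A 1 0),
       (A 1 1 * A 0 3 - A 0 1 * A 1 3) / (A 0 0 * A 1 1 - A 0 1 * A 1 0);
     0, 1, (A 0 0 * A 1 2 - A 1 0 * A 0 2) / (A 0 0 * A 1 1 - A 0 1 * A 1 0),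
       (A 0 0 * A 1 3 - A 1 0 * A 0 3) / (A 0 0 * A 1 1 - A 0 1 * A 1 0);
     0, 0, 1, 0; 0, 0, 0, 1]

lemma EMA_det (A : M 4) (h1 : A 2 0 = 0) (h2 : A 2 1 = 0) (h3 : A 3 0 = 0) (h4 : A 3 1 = 0) :
    A.det = (A 0 0 * A 1 1 - A 0 1 * A 1 0) * (A 2 2 * A 3 3 - A 2 3 * A 3 2) := by
  rw [Matrix.det_succ_row_zero]
  simp only [Fin.sum_univ_four, Matrix.det_fin_three, Matrix.submatrix_apply, Fin.succAbove, Fin.succ]
  simp [h1, h2, h3, h4]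
  ring

lemma EMA_detk (A : M 4) : (EMA_k A).det =
    (A 0 0 * A 1 1 - A 0 1 * A 1 0) * (A 2 2 * A 3 3 - A 2 3 * A 3 2) := by
  have h := EMA_det (EMA_k A) rfl rfl rfl rfl
  rw [h]
  rfl

lemma EMA_fac (A : M 4) (h1 : A 2 0 = 0) (h2 : A 2 1 = 0) (h3 : A 3 0 = 0) (h4 : A 3 1 = 0)
    (hd : A 0 0 * A 1 1 - A 0 1 * A 1 0 ≠ 0) : EMA_k A * 1 * EMA_b A = A := by
  rw [Matrix.mul_one]
  ext i j
  rw [Matrix.mul_apply, Fin.sum_univ_four]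
  fin_cases i <;> fin_cases j <;> simp [EMA_k, EMA_b, h1, h2, h3, h4] <;>
    rw [← mul_div_assoc, ← mul_div_assoc, ← add_div, div_eq_iff hd] <;> ring

theorem T_EMA (hEML : S_EML) (hREP : S_REP) : S_EMA := by
  obtain ⟨e1, e2, e3, e4⟩ := hEML
  obtain ⟨-, r2, -, r4, -⟩ := hREP
  intro A D hA h1 h2 h3 h4 hD
  have hdet := EMA_det A h1 h2 h3 h4
  have hA' := hA
  rw [hdet, isUnit_iff_ne_zero, mul_ne_zero_iff] at hA'
  have hk : IsK 2 (EMA_k A) := by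
    refine ⟨by rw [EMA_detk, ← hdet]; exact hA, fun i j hij => ?_⟩
    fin_cases i <;> fin_cases j <;> first | rfl | (exfalso; exact hij (by decide))
  have hb : IsB (EMA_b A) := by
    refine ⟨?_, fun i j hij => ?_⟩
    · have h := EMA_det (EMA_b A) rfl rfl rfl rfl
      rw [h]
      have : (EMA_b A 0 0 * EMA_b A 1 1 - EMA_b A 0 1 * EMA_b A 1 0) *
          (EMA_b A 2 2 * EMA_b A 3 3 - EMA_b A 2 3 * EMA_b A 3 2) = 1 := by
        simp [EMA_b]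
      rw [this]
      exact isUnit_one
    · fin_cases i <;> fin_cases j <;> first | rfl | (exfalso; revert hij; decide)
  have hrep : rep 4 alp = emb 1 (rep 2 gam3) := by
    rw [r2, r4]
    ext i j
    fin_cases i <;> fin_cases j <;> simp [a0, emb]
  refine ⟨(e4 A D).2 ⟨hA, hD.1⟩, fun f hf => ?_⟩
  obtain ⟨g, hg⟩ := EMA_subD A f
  rw [← hg]
  refine hD.2 g ?_
  rintro D' ⟨k', b', hk', hb', rfl⟩
  rw [hg]
  refine hf _ ⟨embK (EMA_k A) k', embB (EMA_b A) b', e2 _ _ hk hk', e3 _ _ hb hb', ?_⟩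
  rw [hrep, ← e1, EMA_fac A h1 h2 h3 h4 hA'.1]

end Pool.Agent.T2H41.CL
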