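import Pool.Agent.T2H41.CL.Stm

/-!
# Package EMB: the embedding of the closures
-/

set_option autoImplicit false

namespace Pool.Agent.T2H41.CL

open MvPolynomial Matrix

/-- the embedding over any type with a zero -/
def EMB_g {R : Type} [Zero R] (A : Fin 4 → Fin 4 → R) (D : Fin 3 → Fin 3 → R) : Matrix (Fin 7) (Fin 7) R :=
  !![A 0 0, A 0 1, A 0 2, A 0 3, 0, 0, 0;
     A 1 0, A 1 1, A 1 2, A 1 3, 0, 0, 0;
     0, 0, 0, 0, D 0 0, D 0 1, D 0 2;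
     0, 0, 0, 0, D 1 0, D 1 1, D 1 2;
     A 2 0, A 2 1, A 2 2, A 2 3, 0, 0, 0;
     A 3 0, A 3 1, A 3 2, A 3 3, 0, 0, 0;
     0, 0, 0, 0, D 2 0, D 2 1, D 2 2]

lemma EMB_map {R S : Type} [Zero R] [Zero S] (φ : R → S) (h0 : φ 0 = 0) (A : Fin 4 → Fin 4 → R)
    (D : Fin 3 → Fin 3 → R) (i j : Fin 7) :
    φ (EMB_g A D i j) = EMB_g (fun a b => φ (A a b)) (fun a b => φ (D a b)) i j := by
  fin_cases i <;> fin_cases j <;> first | rfl | exact h0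

lemma EMB_subA (D : M 3) (f : P 7) : ∃ g : P 4, ∀ A : M 4, ev A g = ev (emb A D) f := by
  refine ⟨bind₁ (fun s : Fin 7 × Fin 7 => EMB_g (fun a b => (X (a, b) : P 4)) (fun a b => C (D a b)) s.1 s.2) f,
    fun A => ?_⟩
  unfold ev
  change eval₂Hom (RingHom.id ℂ) _ (bind₁ _ f) = eval₂Hom (RingHom.id ℂ) _ f
  rw [eval₂Hom_bind₁]
  congr 2
  funext s
  rw [EMB_map _ (map_zero _)]
  simp only [eval₂Hom_C, eval₂Hom_X', RingHom.id_apply]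
  rfl

lemma EMB_subD (A : M 4) (f : P 7) : ∃ g : P 3, ∀ D : M 3, ev D g = ev (emb A D) f := by
  refine ⟨bind₁ (fun s : Fin 7 × Fin 7 => EMB_g (fun a b => C (A a b)) (fun a b => (X (a, b) : P 3)) s.1 s.2) f,
    fun D => ?_⟩
  unfold ev
  change eval₂Hom (RingHom.id ℂ) _ (bind₁ _ f) = eval₂Hom (RingHom.id ℂ) _ f
  rw [eval₂Hom_bind₁]
  congr 2
  funext s
  rw [EMB_map _ (map_zero _)]
  simp only [eval₂Hom_C, eval₂Hom_X', RingHom.id_apply]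
  rfl

theorem T_EMB (hEML : S_EML) (hREP : S_REP) : S_EMB := by
  obtain ⟨e1, e2, e3, e4⟩ := hEML
  obtain ⟨r1, -, r3, r4, -⟩ := hREP
  have hrep : rep 4 gam = emb (rep 2 gam4) (rep 2 gam3) := by
    rw [r1, r3, r4]
    ext i j
    fin_cases i <;> fin_cases j <;> rfl
  have horb : ∀ A ∈ Orb 2 gam4, ∀ D ∈ Orb 2 gam3, emb A D ∈ Orb 4 gam := by
    rintro A ⟨k, b, hk, hb, rfl⟩ D ⟨k', b', hk', hb', rfl⟩
    exact ⟨embK k k', embB b b', e2 k k' hk hk', e3 b b' hb hb', by rw [e1, hrep]⟩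
  intro A D hA hD
  refine ⟨(e4 A D).2 ⟨hA.1, hD.1⟩, fun f hf => ?_⟩
  obtain ⟨g, hg⟩ := EMB_subD A f
  rw [← hg]
  refine hD.2 g fun D' hD' => ?_
  rw [hg]
  obtain ⟨g', hg'⟩ := EMB_subA D' f
  rw [← hg']
  refine hA.2 g' fun A' hA' => ?_
  rw [hg']
  exact hf _ (horb A' hA' D' hD')

end Pool.Agent.T2H41.CL
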