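import Pool.Agent.T2H41.CL.Stm

/-! Package EML. -/

set_option autoImplicit false

namespace Pool.Agent.T2H41.CL

open Matrix

/-- the partition of the columns -/
def EML_e : Fin 7 ≃ Fin 4 ⊕ Fin 3 where
  toFun := ![Sum.inl 0, Sum.inl 1, Sum.inl 2, Sum.inl 3, Sum.inr 0, Sum.inr 1, Sum.inr 2]
  invFun := Sum.elim ![0, 1, 2, 3] ![4, 5, 6]
  left_inv := by intro i; fin_cases i <;> rfl
  right_inv := by
    rintro (i | i)
    · fin_cases i <;> rfl
    · fin_cases i <;> rfl

/-- the partition of the rows -/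
def EML_f : Fin 7 ≃ Fin 4 ⊕ Fin 3 where
  toFun := ![Sum.inl 0, Sum.inl 1, Sum.inr 0, Sum.inr 1, Sum.inl 2, Sum.inl 3, Sum.inr 2]
  invFun := Sum.elim ![0, 1, 4, 5] ![2, 3, 6]
  left_inv := by intro i; fin_cases i <;> rfl
  right_inv := by
    rintro (i | i)
    · fin_cases i <;> rfl
    · fin_cases i <;> rfl

theorem EML_emb (A : M 4) (D : M 3) :
    emb A D = (Matrix.fromBlocks A 0 0 D).submatrix EML_f EML_e := by
  ext i j
  fin_cases i <;> fin_cases j <;> rfl

theorem EML_embK (A : M 4) (D : M 3) :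
    embK A D = (Matrix.fromBlocks A 0 0 D).submatrix EML_f EML_f := by
  ext i j
  fin_cases i <;> fin_cases j <;> rfl

theorem EML_embB (A : M 4) (D : M 3) :
    embB A D = (Matrix.fromBlocks A 0 0 D).submatrix EML_e EML_e := by
  ext i j
  fin_cases i <;> fin_cases j <;> rfl

theorem EML_unit (A : M 4) (D : M 3) :
    IsUnit (Matrix.fromBlocks A 0 0 D).det ↔ IsUnit A.det ∧ IsUnit D.det := by
  rw [Matrix.det_fromBlocks_zero₂₁, IsUnit.mul_iff]

theorem T_EML : S_EML := by
  refine ⟨?_, ?_, ?_, ?_⟩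
  · intro k A b k' D b'
    rw [EML_emb, EML_emb, EML_embK, EML_embB, Matrix.submatrix_mul_equiv,
      Matrix.submatrix_mul_equiv, Matrix.fromBlocks_multiply, Matrix.fromBlocks_multiply]
    simp
  · intro k k' hk hk'
    refine ⟨?_, ?_⟩
    · rw [EML_embK, Matrix.det_submatrix_equiv_self, EML_unit]
      exact ⟨hk.1, hk'.1⟩
    · have h1 := hk.2
      have h2 := hk'.2
      intro i j hij
      fin_cases i <;> fin_cases j <;>
        first
        | rfl
        | exact absurd (by decide) hij
        | exact h1 _ _ (by decide)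
        | exact h2 _ _ (by decide)
  · intro b b' hb hb'
    refine ⟨?_, ?_⟩
    · rw [EML_embB, Matrix.det_submatrix_equiv_self, EML_unit]
      exact ⟨hb.1, hb'.1⟩
    · have h1 := hb.2
      have h2 := hb'.2
      intro i j hij
      fin_cases i <;> fin_cases j <;>
        first
        | rfl
        | exact absurd hij (by decide)
        | exact h1 _ _ (by decide)
        | exact h2 _ _ (by decide)
  · intro A D
    rw [← Matrix.isUnit_iff_isUnit_det, EML_emb, Matrix.isUnit_submatrix_equiv,
      Matrix.isUnit_iff_isUnit_det, EML_unit]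

end Pool.Agent.T2H41.CL
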