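import Pool.Agent.T2H41.CL.Stm

set_option autoImplicit false

namespace Pool.Agent.T2H41.CL

open MvPolynomial Matrix

private theorem EQV_chain {σ : Type} [Fintype σ] [DecidableEq σ] (La : σ → σ → ℂ)
    (f : MvPolynomial σ ℂ) (s : σ) :
    pderiv s (bind₁ (fun t => ∑ u, C (La t u) * X u) f) =
      ∑ t, C (La t s) * bind₁ (fun t => ∑ u, C (La t u) * X u) (pderiv t f) := by
  have hL : ∀ t, pderiv s (∑ u, C (La t u) * X u : MvPolynomial σ ℂ) = C (La t s) := by
    intro t
    rw [map_sum]
    rw [Finset.sum_eq_single s]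
    · rw [pderiv_C_mul, pderiv_X_self, mul_one]
    · intro u _ hu
      rw [pderiv_C_mul, pderiv_X_of_ne hu, mul_zero]
    · intro h
      exact absurd (Finset.mem_univ s) h
  induction f using MvPolynomial.induction_on with
  | C a => simp
  | add p q hp hq =>
    simp only [map_add, hp, hq, mul_add, Finset.sum_add_distrib]
  | mul_X p t hp =>
    rw [map_mul, bind₁_X_right, Derivation.leibniz, hp, hL]
    have e1 : ∀ u, pderiv u (p * X t) = p * (if u = t then 1 else 0) + X t * pderiv u p := by
      intro u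
      rw [Derivation.leibniz]
      by_cases h : u = t
      · subst h
        simp [smul_eq_mul]
      · rw [pderiv_X_of_ne (fun h' => h h'.symm), if_neg h]
        simp [smul_eq_mul]
    set Φ : MvPolynomial σ ℂ →ₐ[ℂ] MvPolynomial σ ℂ := bind₁ (fun t => ∑ u, C (La t u) * X u) with hΦ
    have hX : Φ (X t) = ∑ u, C (La t u) * X u := bind₁_X_right _ _
    simp only [e1, map_add, map_mul, mul_add, Finset.sum_add_distrib]
    have e2 : ∑ u, C (La u s) * (Φ p * Φ (if u = t then 1 else 0)) = C (La t s) * Φ p := by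
      rw [Finset.sum_eq_single t]
      · rw [if_pos rfl, map_one, mul_one]
      · intro u _ hu
        rw [if_neg hu, map_zero, mul_zero, mul_zero]
      · intro h
        exact absurd (Finset.mem_univ t) h
    rw [e2, ← hX, smul_eq_mul, smul_eq_mul, Finset.mul_sum, mul_comm (Φ p)]
    refine congrArg (C (La t s) * Φ p + ·) (Finset.sum_congr rfl fun u _ => ?_)
    exact mul_left_comm _ _ _

theorem T_EQV : S_EQV := by
  classical
  intro n Z k b hk hb hZ x hx
  obtain ⟨c, f, h, h1, h2, h3⟩ := hx
  have hkk : k⁻¹ * k = 1 := Matrix.nonsing_inv_mul k hk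
  have hkk' : k * k⁻¹ = 1 := Matrix.mul_nonsing_inv k hk
  have hbb : b⁻¹ * b = 1 := Matrix.nonsing_inv_mul b hb
  have hbb' : b * b⁻¹ = 1 := Matrix.mul_nonsing_inv b hb
  let La : Fin n × Fin n → Fin n × Fin n → ℂ := fun t u => k⁻¹ t.1 u.1 * b⁻¹ u.2 t.2
  let L : Fin n × Fin n → P n := fun t => ∑ u, C (La t u) * X u
  have hev : ∀ (y : M n) (g : P n), ev y (bind₁ L g) = ev (k⁻¹ * y * b⁻¹) g := by
    intro y g
    show eval₂Hom (RingHom.id ℂ) _ (bind₁ L g) = eval₂Hom (RingHom.id ℂ) _ g
    rw [eval₂Hom_bind₁]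
    congr 2
    funext t
    show eval (fun s : Fin n × Fin n => y s.1 s.2) (L t) = _
    simp only [L, La, map_sum, map_mul, eval_C, eval_X, Matrix.mul_apply, Finset.sum_mul]
    rw [Fintype.sum_prod_type, Finset.sum_comm]
    refine Finset.sum_congr rfl fun q _ => Finset.sum_congr rfl fun p _ => ?_
    ring
  have hx : k⁻¹ * (k * x * b) * b⁻¹ = x := by
    rw [Matrix.mul_assoc, Matrix.mul_assoc, Matrix.mul_assoc, hbb', Matrix.mul_one,
      ← Matrix.mul_assoc, hkk, Matrix.one_mul]
  refine ⟨c, fun i => bind₁ L (f i), bind₁ L h, ?_, fun z hz hz2 => ?_, ?_⟩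
  · rw [hev, hx]
    exact h1
  · rw [hev] at hz2
    have hzu : IsUnit (k⁻¹ * z * b⁻¹).det := by
      rw [Matrix.det_mul, Matrix.det_mul]
      refine (IsUnit.mul ?_ hz).mul ?_
      · exact (Matrix.isUnit_nonsing_inv_det_iff).2 hk
      · exact (Matrix.isUnit_nonsing_inv_det_iff).2 hb
    have h4 := h2 _ hzu hz2
    simp only [hev]
    rw [← h4, hZ (k⁻¹ * z * b⁻¹)]
    have h5 : k * (k⁻¹ * z * b⁻¹) * b = z := by
      rw [Matrix.mul_assoc, Matrix.mul_assoc, Matrix.mul_assoc, hbb, Matrix.mul_one,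
        ← Matrix.mul_assoc, hkk', Matrix.one_mul]
    rw [h5]
  · let T : (Fin n × Fin n → ℂ) →ₗ[ℂ] (Fin n × Fin n → ℂ) :=
      { toFun := fun v s => ∑ t, La t s * v t
        map_add' := by
          intro v w
          funext s
          simp [mul_add, Finset.sum_add_distrib]
        map_smul' := by
          intro a v
          funext s
          simp only [Pi.smul_apply, smul_eq_mul, RingHom.id_apply, Finset.mul_sum]
          refine Finset.sum_congr rfl fun t _ => ?_
          ring }
    have hT : ∀ v s, T v s = ((k⁻¹)ᵀ * Matrix.of (fun i j => v (i, j)) * (b⁻¹)ᵀ) s.1 s.2 := by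
      intro v s
      show ∑ t, La t s * v t = _
      simp only [La, Matrix.mul_apply, Matrix.transpose_apply, Matrix.of_apply, Finset.sum_mul]
      rw [Fintype.sum_prod_type, Finset.sum_comm]
      refine Finset.sum_congr rfl fun q _ => Finset.sum_congr rfl fun p _ => ?_
      ring
    have hker : LinearMap.ker T = ⊥ := by
      rw [LinearMap.ker_eq_bot']
      intro v hv
      have h6 : (k⁻¹)ᵀ * Matrix.of (fun i j => v (i, j)) * (b⁻¹)ᵀ = 0 := by
        ext i j
        rw [← hT v (i, j), hv]
        rfl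
      have h7 : kᵀ * ((k⁻¹)ᵀ * Matrix.of (fun i j => v (i, j)) * (b⁻¹)ᵀ) * bᵀ =
          Matrix.of (fun i j => v (i, j)) := by
        have e1 : kᵀ * (k⁻¹)ᵀ = 1 := by
          rw [← Matrix.transpose_mul, hkk, Matrix.transpose_one]
        have e2 : (b⁻¹)ᵀ * bᵀ = 1 := by
          rw [← Matrix.transpose_mul, hbb', Matrix.transpose_one]
        rw [Matrix.mul_assoc, Matrix.mul_assoc, Matrix.mul_assoc, e2, Matrix.mul_one,
          ← Matrix.mul_assoc, e1, Matrix.one_mul]
      rw [h6, Matrix.mul_zero, Matrix.zero_mul] at h7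
      funext s
      have h8 := congrFun (congrFun h7 s.1) s.2
      exact h8.symm
    have h9 := h3.map' T hker
    have h10 : (fun (i : Fin c) (s : Fin n × Fin n) => ev (k * x * b) (pderiv s (bind₁ L (f i)))) =
        T ∘ fun (i : Fin c) (s : Fin n × Fin n) => ev x (pderiv s (f i)) := by
      funext i s
      show ev (k * x * b) (pderiv s (bind₁ L (f i))) = ∑ t, La t s * ev x (pderiv t (f i))
      rw [EQV_chain La (f i) s]
      unfold ev
      rw [map_sum]
      refine Finset.sum_congr rfl fun t _ => ?_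
      rw [map_mul, eval_C]
      congr 1
      have h11 := hev (k * x * b) (pderiv t (f i))
      rw [hx] at h11
      exact h11
    rw [h10]
    exact h9

end Pool.Agent.T2H41.CL
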