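import Pool.Agent.T2H41.CL.Stm

set_option autoImplicit false

namespace Pool.Agent.T2H41.CL

open MvPolynomial Matrix Filter Topology

namespace PkgIFT

variable {n : ℕ}

/-- the differential -/
noncomputable def D (g : P n) (x : Fin n × Fin n → ℂ) : (Fin n × Fin n → ℂ) →L[ℂ] ℂ :=
  ∑ s, (eval x (pderiv s g)) • ContinuousLinearMap.proj (R := ℂ) (φ := fun _ => ℂ) s

lemma D_apply (g : P n) (x v : Fin n × Fin n → ℂ) :
    D g x v = ∑ s, eval x (pderiv s g) * v s := by
  unfold D
  rw [ContinuousLinearMap.sum_apply]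
  rfl

lemma strict (g : P n) (x : Fin n × Fin n → ℂ) :
    HasStrictFDerivAt (fun x : Fin n × Fin n → ℂ => eval x g) (D g x) x := by
  induction g using MvPolynomial.induction_on with
  | C a =>
    have h1 : D (C a : P n) x = 0 := by
      ext v
      simp [D_apply]
    rw [h1]
    simp only [eval_C]
    exact hasStrictFDerivAt_const a x
  | add p q hp hq =>
    have h1 : D (p + q) x = D p x + D q x := by
      ext v
      simp [D_apply, add_mul, Finset.sum_add_distrib]
    rw [h1]
    simp only [map_add]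
    exact hp.add hq
  | mul_X p s hp =>
    have h1 : D (p * X s) x = (eval x p) • (ContinuousLinearMap.proj (R := ℂ) (φ := fun _ => ℂ) s) +
        (x s) • D p x := by
      ext v
      rw [D_apply, ContinuousLinearMap.add_apply, ContinuousLinearMap.smul_apply,
        ContinuousLinearMap.smul_apply, D_apply]
      simp only [Derivation.leibniz, map_add, smul_eq_mul, map_mul, eval_X, pderiv_X]
      simp only [add_mul, Finset.sum_add_distrib, Finset.mul_sum, ContinuousLinearMap.proj_apply]
      congr 1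
      · rw [Finset.sum_eq_single s]
        · simp
        · intro t _ hts
          rw [Pi.single_eq_of_ne (Ne.symm hts)]
          simp
        · intro h; exact absurd (Finset.mem_univ s) h
      · apply Finset.sum_congr rfl
        intro t _
        ring
    rw [h1]
    simp only [map_mul, eval_X]
    have hX : HasStrictFDerivAt (fun x : Fin n × Fin n → ℂ => x s)
        (ContinuousLinearMap.proj (R := ℂ) (φ := fun _ => ℂ) s) x :=
      (ContinuousLinearMap.proj (R := ℂ) (φ := fun _ => ℂ) s).hasStrictFDerivAt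
    exact hp.mul hX

lemma ev_eq (w : M n) (g : P n) : ev w g = eval (fun s : Fin n × Fin n => w s.1 s.2) g := rfl

/-- matrix of a vector -/
def mat (x : Fin n × Fin n → ℂ) : M n := fun i j => x (i, j)

lemma ev_mat (x : Fin n × Fin n → ℂ) (g : P n) : ev (mat x) g = eval x g := rfl

end PkgIFT

open PkgIFT in
theorem T_IFT : S_IFT := by
  intro n c f h e z hz hh hf hli hcl v hv
  set x₀ : Fin n × Fin n → ℂ := fun s => z s.1 s.2 with hx₀
  have hmat : mat x₀ = z := rfl
  set Φ : (Fin n × Fin n → ℂ) → (Fin c → ℂ) × ℂ :=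
    fun x => ((fun i => eval x (f i)), eval x e) with hΦ
  set Φ' : (Fin n × Fin n → ℂ) →L[ℂ] (Fin c → ℂ) × ℂ :=
    (ContinuousLinearMap.pi (fun i => D (f i) x₀)).prod (D e x₀) with hΦ'
  have hstrict : HasStrictFDerivAt Φ Φ' x₀ := by
    apply HasStrictFDerivAt.prodMk
    · exact hasStrictFDerivAt_pi.2 (fun i => strict (f i) x₀)
    · exact strict e x₀
  have hU : {x : Fin n × Fin n → ℂ | (mat x).det ≠ 0 ∧ eval x h ≠ 0} ∈ 𝓝 x₀ := by
    have h1 : Continuous fun x : Fin n × Fin n → ℂ => (mat x).det := by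
      apply Continuous.matrix_det
      apply continuous_matrix
      intro i j
      exact continuous_apply (i, j)
    have h2 : Continuous fun x : Fin n × Fin n → ℂ => eval x h := MvPolynomial.continuous_eval h
    have h3 : IsOpen {x : Fin n × Fin n → ℂ | (mat x).det ≠ 0 ∧ eval x h ≠ 0} :=
      (isOpen_ne_fun h1 continuous_const).inter (isOpen_ne_fun h2 continuous_const)
    exact h3.mem_nhds ⟨by rw [hmat]; exact hz.ne_zero, hh⟩
  have hez : eval x₀ e = 0 := hcl z hz hh hf
  have hns : ¬ (Φ'.range = ⊤) := by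
    intro htop
    have hmap := hstrict.map_nhds_eq_of_surj htop
    have him : Φ '' {x : Fin n × Fin n → ℂ | (mat x).det ≠ 0 ∧ eval x h ≠ 0} ∈ 𝓝 (Φ x₀) := by
      rw [← hmap]
      exact Filter.image_mem_map hU
    have hΦ0 : Φ x₀ = ((0 : Fin c → ℂ), (0 : ℂ)) := by
      refine Prod.ext ?_ hez
      funext i
      exact hf i
    rw [hΦ0] at him
    have hc : Continuous fun t : ℂ => ((0 : Fin c → ℂ), t) := by fun_prop
    have hpre := hc.continuousAt.preimage_mem_nhds (x := (0 : ℂ)) him
    have hne : ∀ᶠ t : ℂ in 𝓝[≠] (0 : ℂ), ((0 : Fin c → ℂ), t) ∈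
        Φ '' {x : Fin n × Fin n → ℂ | (mat x).det ≠ 0 ∧ eval x h ≠ 0} :=
      nhdsWithin_le_nhds hpre
    obtain ⟨t, ⟨x, ⟨hx1, hx2⟩, hx3⟩, ht0⟩ := (hne.and self_mem_nhdsWithin).exists
    have h1 : ∀ i, ev (mat x) (f i) = 0 := by
      intro i
      have := congrFun (congrArg Prod.fst hx3) i
      exact this
    have h2 : eval x e = t := congrArg Prod.snd hx3
    have h3 := hcl (mat x) (isUnit_iff_ne_zero.2 hx1) hx2 h1
    rw [ev_mat, h2] at h3
    exact ht0 h3
  have hlt : Φ'.range < ⊤ := lt_top_iff_ne_top.2 hns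
  obtain ⟨ℓ, hℓ0, hℓ⟩ := Submodule.exists_le_ker_of_lt_top _ hlt
  have hℓΦ : ∀ w, ℓ (Φ' w) = 0 := fun w => hℓ ⟨w, rfl⟩
  set a : Fin c → ℂ := fun i => ℓ (Pi.single i 1, 0) with ha
  set b : ℂ := ℓ (0, 1) with hb
  have hℓf : ∀ (y : Fin c → ℂ) (t : ℂ), ℓ (y, t) = ∑ i, y i * a i + t * b := by
    intro y t
    have h1 : (y, t) = (∑ i, y i • ((Pi.single i (1 : ℂ), (0 : ℂ)) : (Fin c → ℂ) × ℂ)) +
        t • ((0, 1) : (Fin c → ℂ) × ℂ) := by
      refine Prod.ext ?_ ?_
      · simp only [Prod.fst_add, Prod.fst_sum, Prod.smul_fst, smul_zero, add_zero]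
        funext j
        rw [Finset.sum_apply]
        simp [Pi.single_apply]
      · simp [Prod.snd_sum]
    rw [h1, map_add, map_sum, map_smul, smul_eq_mul]
    congr 1
    apply Finset.sum_congr rfl
    intro i _
    rw [map_smul, smul_eq_mul]
  have hrel : ∀ w : Fin n × Fin n → ℂ, ∑ i, D (f i) x₀ w * a i + D e x₀ w * b = 0 := by
    intro w
    have h1 := hℓΦ w
    have h2 : Φ' w = ((fun i => D (f i) x₀ w), D e x₀ w) := rfl
    rw [h2, hℓf] at h1
    exact h1
  have hb0 : b ≠ 0 := by
    intro hb0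
    have ha0 : a = 0 := by
      have h1 := Fintype.linearIndependent_iff.1 hli a (by
        funext s
        rw [Finset.sum_apply]
        have h2 := hrel (Pi.single s 1)
        rw [hb0, mul_zero, add_zero] at h2
        simp only [Pi.smul_apply, smul_eq_mul, Pi.zero_apply]
        rw [← h2]
        apply Finset.sum_congr rfl
        intro i _
        rw [D_apply, Finset.sum_eq_single s]
        · rw [Pi.single_eq_same, mul_one, mul_comm]
          rfl
        · intro t _ hts
          rw [Pi.single_eq_of_ne hts, mul_zero]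
        · intro h; exact absurd (Finset.mem_univ s) h)
      funext i
      exact h1 i
    apply hℓ0
    apply LinearMap.ext
    rintro ⟨y, t⟩
    rw [hℓf, ha0, hb0]
    simp
  have h1 := hrel v
  have h2 : ∑ i, D (f i) x₀ v * a i = 0 := by
    apply Finset.sum_eq_zero
    intro i _
    rw [D_apply]
    have := hv i
    rw [show (∑ s, eval x₀ (pderiv s (f i)) * v s) = 0 from this, zero_mul]
  rw [h2, zero_add] at h1
  have h3 := (mul_eq_zero.1 h1).resolve_right hb0
  rw [D_apply] at h3
  exact h3

end Pool.Agent.T2H41.CL
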