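import Pool.Agent.T2H41.CL.Stm

set_option autoImplicit false

namespace Pool.Agent.T2H41.CL

open MvPolynomial Matrix

namespace PkgIRR

variable {n : ℕ}

abbrev Sg (n : ℕ) : Type := (Fin n × Fin n) ⊕ (Fin n × Fin n)
abbrev R (n : ℕ) : Type := MvPolynomial (Sg n) ℂ

noncomputable def KX (n p : ℕ) : Matrix (Fin n) (Fin n) (R n) := fun i j =>
  if ((i : ℕ) < p ↔ (j : ℕ) < p) then X (Sum.inl (i, j)) else 0
noncomputable def BX (n : ℕ) : Matrix (Fin n) (Fin n) (R n) := fun i j =>
  if j < i then 0 else X (Sum.inr (i, j))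
noncomputable def W (n p : ℕ) (g : M n) : Matrix (Fin n) (Fin n) (R n) :=
  KX n p * g.map C * BX n

/-- the values -/
def ka (p : ℕ) (A : M n) : M n := fun i j => if ((i : ℕ) < p ↔ (j : ℕ) < p) then A i j else 0
def be (B : M n) : M n := fun i j => if j < i then 0 else B i j

/-- the point -/
def pt (A B : M n) : Sg n → ℂ := Sum.elim (fun s => A s.1 s.2) (fun s => B s.1 s.2)

lemma eval_KX (p : ℕ) (A B : M n) : (KX n p).map (eval (pt A B)) = ka p A := by
  ext i j
  rw [Matrix.map_apply]
  unfold KX ka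
  split_ifs with h
  · simp [pt]
  · simp

lemma eval_BX (A B : M n) : (BX n).map (eval (pt A B)) = be B := by
  ext i j
  rw [Matrix.map_apply]
  unfold BX be
  split_ifs with h
  · simp
  · simp [pt]

lemma eval_W (p : ℕ) (g A B : M n) : (W n p g).map (eval (pt A B)) = ka p A * g * be B := by
  unfold W
  rw [Matrix.map_mul, Matrix.map_mul, eval_KX, eval_BX]
  congr 2
  ext i j
  simp

lemma eval_det_K (p : ℕ) (A B : M n) : eval (pt A B) (KX n p).det = (ka p A).det := by
  rw [RingHom.map_det, RingHom.mapMatrix_apply, eval_KX]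

lemma eval_det_B (A B : M n) : eval (pt A B) (BX n).det = (be B).det := by
  rw [RingHom.map_det, RingHom.mapMatrix_apply, eval_BX]

/-- the substitution -/
noncomputable def sub (p : ℕ) (g : M n) (f : P n) : R n :=
  bind₁ (fun s : Fin n × Fin n => W n p g s.1 s.2) f

lemma eval_sub (p : ℕ) (g A B : M n) (f : P n) :
    eval (pt A B) (sub p g f) = ev (ka p A * g * be B) f := by
  unfold sub ev
  have h := eval₂Hom_bind₁ (RingHom.id ℂ) (pt A B) (fun s : Fin n × Fin n => W n p g s.1 s.2) f
  have h2 : ∀ (σ : Type) (v : σ → ℂ) (φ : MvPolynomial σ ℂ),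
      eval₂Hom (RingHom.id ℂ) v φ = eval v φ := fun _ _ _ => rfl
  simp only [h2] at h
  rw [h]
  congr 2
  funext s
  rw [← eval_W]
  rfl

lemma ka_K (p : ℕ) (k : M n) (hk : IsK p k) : ka p k = k := by
  ext i j
  unfold ka
  split_ifs with h
  · rfl
  · exact (hk.2 i j h).symm

lemma be_B (b : M n) (hb : IsB b) : be b = b := by
  ext i j
  unfold be
  split_ifs with h
  · exact (hb.2 i j h).symm
  · rfl

lemma ka_isK (p : ℕ) (A : M n) (h : (ka p A).det ≠ 0) : IsK p (ka p A) := by
  refine ⟨isUnit_iff_ne_zero.2 h, fun i j hij => ?_⟩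
  unfold ka
  rw [if_neg hij]

lemma be_isB (B : M n) (h : (be B).det ≠ 0) : IsB (be B) := by
  refine ⟨isUnit_iff_ne_zero.2 h, fun i j hij => ?_⟩
  unfold be
  rw [if_pos hij]

lemma one_isK (p : ℕ) : IsK p (1 : M n) := by
  refine ⟨by simp, fun i j hij => ?_⟩
  rw [Matrix.one_apply_ne]
  rintro rfl
  exact hij Iff.rfl

lemma one_isB : IsB (1 : M n) := by
  refine ⟨by simp, fun i j hij => ?_⟩
  rw [Matrix.one_apply_ne]
  rintro rfl
  exact lt_irrefl _ hij

lemma ex_pt (v : Sg n → ℂ) : ∃ A B : M n, v = pt A B := by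
  refine ⟨fun i j => v (Sum.inl (i, j)), fun i j => v (Sum.inr (i, j)), ?_⟩
  funext s
  rcases s with s | s <;> rfl

end PkgIRR

open PkgIRR in
theorem T_IRR : S_IRR := by
  intro n p γ hdet
  have hsub : Orb p γ ⊆ Y p γ := by
    intro s hs
    refine ⟨?_, fun f hf => hf s hs⟩
    obtain ⟨k, b, hk, hb, rfl⟩ := hs
    rw [Matrix.det_mul, Matrix.det_mul]
    exact (hk.1.mul hdet).mul hb.1
  have hrep : rep p γ ∈ Orb p γ := ⟨1, 1, one_isK p, one_isB, by simp⟩
  refine ⟨⟨_, hsub hrep⟩, fun x hx => hx.1, ?_, ?_⟩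
  · intro x hx h
    refine ⟨hx, fun f hf => h f (fun s hs => hs.2 f hf)⟩
  · intro f g hfg
    have hzero : (KX n p).det * (BX n).det * (sub p (rep p γ) f * sub p (rep p γ) g) = 0 := by
      apply MvPolynomial.funext
      intro v
      obtain ⟨A, B, rfl⟩ := ex_pt v
      rw [map_mul, map_mul, map_mul, eval_det_K, eval_det_B, eval_sub, eval_sub, map_zero]
      by_cases h1 : (ka p A).det = 0
      · rw [h1]; ring
      by_cases h2 : (be B).det = 0
      · rw [h2]; ring
      have hmem : ka p A * rep p γ * be B ∈ Orb p γ :=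
        ⟨ka p A, be B, ka_isK p A h1, be_isB B h2, rfl⟩
      rw [hfg _ (hsub hmem), mul_zero]
    have hK : (KX n p).det ≠ 0 := by
      intro h
      have h1 := eval_det_K p (1 : M n) (1 : M n)
      rw [h, map_zero, ka_K p 1 (one_isK p), Matrix.det_one] at h1
      exact zero_ne_one h1
    have hB : (BX n).det ≠ 0 := by
      intro h
      have h1 := eval_det_B (1 : M n) (1 : M n)
      rw [h, map_zero, be_B 1 one_isB, Matrix.det_one] at h1
      exact zero_ne_one h1
    have key : ∀ q : P n, sub p (rep p γ) q = 0 → ∀ x ∈ Y p γ, ev x q = 0 := by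
      intro q hq x hx
      apply hx.2 q
      rintro s ⟨k, b, hk, hb, rfl⟩
      have h1 := eval_sub p (rep p γ) k b q
      rw [hq, map_zero, ka_K p k hk, be_B b hb] at h1
      exact h1.symm
    rcases mul_eq_zero.1 hzero with h | h
    · rcases mul_eq_zero.1 h with h | h
      · exact absurd h hK
      · exact absurd h hB
    · rcases mul_eq_zero.1 h with h | h
      · exact Or.inl (key f h)
      · exact Or.inr (key g h)

end Pool.Agent.T2H41.CL
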