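import Pool.Agent.T2H41.CL.Stm

set_option autoImplicit false

namespace Pool.Agent.T2H41.CL

open MvPolynomial Matrix

theorem T_LA : S_LA := by
  classical
  intro n c m f
  constructor
  · intro e he hv
    let Φ := dotProductEquiv ℂ (Fin n × Fin n)
    have h1 : ∀ j, Φ (e j) ∈ Submodule.span ℂ (Set.range fun i => Φ (f i)) := by
      intro j
      apply mem_span_of_iInf_ker_le_ker
      intro v hvv
      rw [Submodule.mem_iInf] at hvv
      rw [LinearMap.mem_ker]
      exact hv v (fun i => LinearMap.mem_ker.1 (hvv i)) j
    have h2 : LinearIndependent ℂ (fun j => Φ (e j)) := he.map' Φ.toLinearMap Φ.ker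
    have h3 : Submodule.span ℂ (Set.range fun j => Φ (e j)) ≤ Submodule.span ℂ (Set.range fun i => Φ (f i)) := by
      rw [Submodule.span_le]
      rintro _ ⟨j, rfl⟩
      exact h1 j
    have h4 := Submodule.finrank_mono h3
    rw [finrank_span_eq_card h2, Fintype.card_fin] at h4
    have h5 : Module.finrank ℂ (Submodule.span ℂ (Set.range fun i => Φ (f i))) ≤ c := by
      have := finrank_range_le_card (R := ℂ) (fun i => Φ (f i))
      simpa [Set.finrank] using this
    omega
  · intro hf T hT
    let R : (Fin n × Fin n → ℂ) →ₗ[ℂ] (T → ℂ) := LinearMap.funLeft ℂ ℂ (fun s : T => (s : Fin n × Fin n))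
    have h1 : LinearIndependent ℂ (fun i => R (f i)) := by
      rw [Fintype.linearIndependent_iff] at hf ⊢
      intro a ha
      apply hf a
      funext s
      by_cases hs : s ∈ T
      · have := congrFun ha ⟨s, hs⟩
        simpa [R, LinearMap.funLeft_apply] using this
      · rw [Finset.sum_apply]
        simp only [Pi.smul_apply, Pi.zero_apply]
        apply Finset.sum_eq_zero
        intro i _
        rw [hT i s hs, smul_zero]
    have h2 := h1.fintype_card_le_finrank
    rw [Module.finrank_fintype_fun_eq_card, Fintype.card_fin, Fintype.card_coe] at h2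
    exact h2

end Pool.Agent.T2H41.CL
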