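import Pool.Agent.T2H41.CL.Stm

set_option autoImplicit false

namespace Pool.Agent.T2H41.CL

open MvPolynomial Matrix

noncomputable def LIN_L {n : ℕ} (A D : M n) : P n →ₐ[ℂ] Polynomial ℂ :=
  MvPolynomial.aeval (fun s : Fin n × Fin n =>
    (Polynomial.C (A s.1 s.2) + Polynomial.X * Polynomial.C (D s.1 s.2) : Polynomial ℂ))

theorem LIN_eval {n : ℕ} (A D : M n) (f : P n) (t : ℂ) : (LIN_L A D f).eval t = ev (A + t • D) f := by
  unfold ev
  induction f using MvPolynomial.induction_on with
  | C a => simp [LIN_L]
  | add p q hp hq => rw [map_add, Polynomial.eval_add, hp, hq, map_add]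
  | mul_X p s hp =>
    rw [map_mul, Polynomial.eval_mul, hp, map_mul]
    congr 1
    simp [LIN_L]
    ring

theorem LIN_deriv {n : ℕ} (A D : M n) (f : P n) :
    (Polynomial.derivative (LIN_L A D f)).eval 0 = ∑ s, ev A (pderiv s f) * D s.1 s.2 := by
  induction f using MvPolynomial.induction_on with
  | C a => simp [LIN_L, ev]
  | add p q hp hq =>
    rw [map_add, Polynomial.derivative_add, Polynomial.eval_add, hp, hq, ← Finset.sum_add_distrib]
    apply Finset.sum_congr rfl
    intro s _
    unfold ev
    rw [map_add, map_add, add_mul]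
  | mul_X p s hp =>
    rw [map_mul, Polynomial.derivative_mul, Polynomial.eval_add, Polynomial.eval_mul, Polynomial.eval_mul, hp,
      LIN_eval A D p 0]
    have h1 : LIN_L A D (X s) = (Polynomial.C (A s.1 s.2) + Polynomial.X * Polynomial.C (D s.1 s.2)) := by
      simp [LIN_L]
    rw [h1]
    have h2 : ∀ s' : Fin n × Fin n, ev A (pderiv s' (p * X s)) * D s'.1 s'.2 =
        ev A (pderiv s' p) * D s'.1 s'.2 * A s.1 s.2 + (if s' = s then ev A p * D s.1 s.2 else 0) := by
      intro s'
      unfold ev
      rw [Derivation.leibniz, map_add, smul_eq_mul, smul_eq_mul, map_mul, map_mul, eval_X]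
      by_cases h : s' = s
      · subst h
        rw [pderiv_X_self, if_pos rfl, map_one]
        ring
      · rw [pderiv_X_of_ne (Ne.symm h), if_neg h, map_zero]
        ring
    rw [Finset.sum_congr rfl fun s' _ => h2 s', Finset.sum_add_distrib, ← Finset.sum_mul]
    simp

theorem T_LIN : S_LIN := by
  constructor
  · intro n x
    unfold detP
    have h := RingHom.map_det (MvPolynomial.eval (fun s : Fin n × Fin n => x s.1 s.2))
      (Matrix.of fun i j : Fin n => (X (i, j) : P n))
    refine h.trans ?_
    congr 1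
    ext i j
    simp [RingHom.mapMatrix_apply]
  · intro n A D g hg
    have hLg : LIN_L A D g ≠ 0 := by
      obtain ⟨t, ht⟩ := hg
      intro h
      apply ht
      rw [← LIN_eval, h, Polynomial.eval_zero]
    have hfin : ∀ T : Finset ℂ, ∃ t ∉ T, ev (A + t • D) g ≠ 0 := by
      intro T
      obtain ⟨t, ht⟩ := Infinite.exists_notMem_finset (T ∪ (LIN_L A D g).roots.toFinset)
      rw [Finset.mem_union, not_or] at ht
      refine ⟨t, ht.1, ?_⟩
      intro h
      apply ht.2
      rw [Multiset.mem_toFinset, Polynomial.mem_roots hLg, Polynomial.IsRoot, LIN_eval, h]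
    refine ⟨hfin, ?_⟩
    intro f hf
    have hLf : LIN_L A D f = 0 := by
      have h1 : LIN_L A D g * LIN_L A D f = 0 := by
        apply Polynomial.funext
        intro t
        rw [Polynomial.eval_mul, LIN_eval, LIN_eval, Polynomial.eval_zero]
        by_cases h : ev (A + t • D) g = 0
        · rw [h, zero_mul]
        · rw [hf t h, mul_zero]
      exact (mul_eq_zero.1 h1).resolve_left hLg
    refine ⟨fun t => ?_, ?_⟩
    · rw [← LIN_eval, hLf, Polynomial.eval_zero]
    · rw [← LIN_deriv, hLf, Polynomial.derivative_zero, Polynomial.eval_zero]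

end Pool.Agent.T2H41.CL
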