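import Pool.Agent.T2H41.CL.Stm

set_option autoImplicit false
set_option linter.unusedSimpArgs false
set_option linter.unusedTactic false
set_option linter.unreachableTactic false

namespace Pool.Agent.T2H41.CL

open MvPolynomial Matrix

namespace PkgLNS

lemma e00 : a0 0 0 = 1 := rfl
lemma e01 : a0 0 1 = 0 := rfl
lemma e02 : a0 0 2 = 0 := rfl
lemma e03 : a0 0 3 = 0 := rfl
lemma e04 : a0 0 4 = 0 := rfl
lemma e05 : a0 0 5 = 0 := rfl
lemma e06 : a0 0 6 = 0 := rfl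
lemma e10 : a0 1 0 = 0 := rfl
lemma e11 : a0 1 1 = 1 := rfl
lemma e12 : a0 1 2 = 0 := rfl
lemma e13 : a0 1 3 = 0 := rfl
lemma e14 : a0 1 4 = 0 := rfl
lemma e15 : a0 1 5 = 0 := rfl
lemma e16 : a0 1 6 = 0 := rfl
lemma e20 : a0 2 0 = 0 := rfl
lemma e21 : a0 2 1 = 0 := rfl
lemma e22 : a0 2 2 = 0 := rfl
lemma e23 : a0 2 3 = 0 := rfl
lemma e24 : a0 2 4 = 1 := rfl
lemma e25 : a0 2 5 = 0 := rfl
lemma e26 : a0 2 6 = 1 := rfl
lemma e30 : a0 3 0 = 0 := rfl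
lemma e31 : a0 3 1 = 0 := rfl
lemma e32 : a0 3 2 = 0 := rfl
lemma e33 : a0 3 3 = 0 := rfl
lemma e34 : a0 3 4 = 0 := rfl
lemma e35 : a0 3 5 = 1 := rfl
lemma e36 : a0 3 6 = 0 := rfl
lemma e40 : a0 4 0 = 0 := rfl
lemma e41 : a0 4 1 = 0 := rfl
lemma e42 : a0 4 2 = 1 := rfl
lemma e43 : a0 4 3 = 0 := rfl
lemma e44 : a0 4 4 = 0 := rfl
lemma e45 : a0 4 5 = 0 := rfl
lemma e46 : a0 4 6 = 0 := rfl
lemma e50 : a0 5 0 = 0 := rfl
lemma e51 : a0 5 1 = 0 := rfl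
lemma e52 : a0 5 2 = 0 := rfl
lemma e53 : a0 5 3 = 1 := rfl
lemma e54 : a0 5 4 = 0 := rfl
lemma e55 : a0 5 5 = 0 := rfl
lemma e56 : a0 5 6 = 0 := rfl
lemma e60 : a0 6 0 = 0 := rfl
lemma e61 : a0 6 1 = 0 := rfl
lemma e62 : a0 6 2 = 0 := rfl
lemma e63 : a0 6 3 = 0 := rfl
lemma e64 : a0 6 4 = 1 := rfl
lemma e65 : a0 6 5 = 0 := rfl
lemma e66 : a0 6 6 = -1 := rfl

lemma ev_d2 (z : M 7) (r0 r1 c0 c1 : Fin 7) : ev z (d2 r0 r1 c0 c1) = z r0 c0 * z r1 c1 - z r0 c1 * z r1 c0 := by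
  simp [ev, d2]

lemma ev_d3 (z : M 7) (r0 r1 r2 c0 c1 c2 : Fin 7) : ev z (d3 r0 r1 r2 c0 c1 c2) =
    z r0 c0 * (z r1 c1 * z r2 c2 - z r1 c2 * z r2 c1) - z r0 c1 * (z r1 c0 * z r2 c2 - z r1 c2 * z r2 c0) +
      z r0 c2 * (z r1 c0 * z r2 c1 - z r1 c1 * z r2 c0) := by
  simp [ev, d3, d2]

lemma ev_hh (z : M 7) : ev z hh = (z 0 0 * z 1 1 - z 0 1 * z 1 0) * (z 4 2 * z 5 3 - z 4 3 * z 5 2) := by
  simp [ev, hh, d2]

lemma ent (t : ℂ) (a b r c : Fin 7) : (a0 + t • Matrix.single a b (1 : ℂ)) r c = a0 r c + if a = r ∧ b = c then t else 0 := by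
  rw [Matrix.add_apply, Matrix.smul_apply, Matrix.single_apply]
  split_ifs <;> simp

/-- the inverse of `a0` -/
noncomputable def b0 : M 7 :=
  !![1, 0, 0, 0, 0, 0, 0;
     0, 1, 0, 0, 0, 0, 0;
     0, 0, 0, 0, 1, 0, 0;
     0, 0, 0, 0, 0, 1, 0;
     0, 0, 1/2, 0, 0, 0, 1/2;
     0, 0, 0, 1, 0, 0, 0;
     0, 0, 1/2, 0, 0, 0, -1/2]

lemma det_a0 : IsUnit a0.det := by
  have h : b0 * a0 = 1 := by
    ext i j
    rw [Matrix.mul_apply, Fin.sum_univ_seven]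
    fin_cases i <;> fin_cases j <;>
      simp [b0, e00, e01, e02, e03, e04, e05, e06, e10, e11, e12, e13, e14, e15, e16, e20, e21, e22, e23, e24, e25, e26, e30, e31, e32, e33, e34, e35, e36, e40, e41, e42, e43, e44, e45, e46, e50, e51, e52, e53, e54, e55, e56, e60, e61, e62, e63, e64, e65, e66] <;> norm_num
  exact Matrix.isUnit_det_of_left_inverse h

end PkgLNS

open PkgLNS in
theorem T_LNS : S_LNS := by
  refine ⟨?_, ?_, ?_, ?_⟩
  · rw [ev_hh]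
    simp [e00, e01, e02, e03, e10, e11, e12, e13, e20, e21, e22, e23, e30, e31, e32, e33, e40, e41, e42, e43, e50, e51, e52, e53, e60, e61, e62, e63]
  · exact det_a0
  · intro t
    rw [ent]
    simp [e40]
  · rintro ⟨a, b⟩ hs t i
    have key : ∀ i : Fin 7, ev (a0 + t • Matrix.single a b (1 : ℂ)) (eqs i) = 0 := by
      intro i
      fin_cases i <;> simp only [eqs, Matrix.cons_val_zero, Matrix.cons_val_one, Matrix.cons_val, Fin.zero_eta, Fin.mk_one, Fin.reduceFinMk, ev_d3, ev_d2, ent, e00, e01, e02, e03, e10, e11, e12, e13, e20, e21, e22, e23, e30, e31, e32, e33, e40, e41, e42, e43, e50, e51, e52, e53, e60, e61, e62, e63] <;>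
      fin_cases a <;> fin_cases b <;> first | (exfalso; revert hs; decide) | simp
    exact key i

end Pool.Agent.T2H41.CL
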