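import Pool.Agent.T2H41.CL.Stm

/-! # Project CL, package NF: the normal form -/

set_option autoImplicit false

namespace Pool.Agent.T2H41.CL

open MvPolynomial Matrix

namespace PkgNF

/-- the unipotent element of `K` -/
def kk (a b c d e f : ℂ) : M 7 :=
  !![1, 0, 0, 0, 0, 0, 0;
     0, 1, 0, 0, 0, 0, 0;
     a, b, 1, 0, 0, 0, 0;
     c, d, 0, 1, 0, 0, 0;
     0, 0, 0, 0, 1, 0, 0;
     0, 0, 0, 0, 0, 1, 0;
     0, 0, 0, 0, e, f, 1]

/-- the unipotent element of `B` -/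
def bb (W : Matrix (Fin 4) (Fin 3) ℂ) : M 7 :=
  !![1, 0, 0, 0, W 0 0, W 0 1, W 0 2;
     0, 1, 0, 0, W 1 0, W 1 1, W 1 2;
     0, 0, 1, 0, W 2 0, W 2 1, W 2 2;
     0, 0, 0, 1, W 3 0, W 3 1, W 3 2;
     0, 0, 0, 0, 1, 0, 0;
     0, 0, 0, 0, 0, 1, 0;
     0, 0, 0, 0, 0, 0, 1]

theorem kk_isK (a b c d e f : ℂ) : IsK 4 (kk a b c d e f) := by
  constructor
  · have h : (kk a b c d e f).det = 1 := by
      rw [Matrix.det_of_isLowerTriangular]
      · simp [kk, Fin.prod_univ_succ]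
      · intro i j hij
        have hij' : i < j := hij
        fin_cases i <;> fin_cases j <;> first | rfl | (exfalso; revert hij'; decide)
    rw [h]; exact isUnit_one
  · intro i j h
    fin_cases i <;> fin_cases j <;> first | rfl | (exfalso; revert h; decide)

theorem bb_isB (W : Matrix (Fin 4) (Fin 3) ℂ) : IsB (bb W) := by
  have h0 : ∀ i j : Fin 7, j < i → bb W i j = 0 := by
    intro i j h
    fin_cases i <;> fin_cases j <;> first | rfl | (exfalso; revert h; decide)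
  refine ⟨?_, h0⟩
  have h : (bb W).det = 1 := by
    rw [Matrix.det_of_isUpperTriangular (fun i j hij => h0 i j hij)]
    simp [bb, Fin.prod_univ_succ]
  rw [h]; exact isUnit_one

/-- the matrix after the row operations -/
def yy (A : M 4) (E : Matrix (Fin 4) (Fin 3) ℂ) (D : M 3) : M 7 :=
  !![A 0 0, A 0 1, A 0 2, A 0 3, E 0 0, E 0 1, E 0 2;
     A 1 0, A 1 1, A 1 2, A 1 3, E 1 0, E 1 1, E 1 2;
     0, 0, 0, 0, D 0 0, D 0 1, D 0 2;
     0, 0, 0, 0, D 1 0, D 1 1, D 1 2;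
     A 2 0, A 2 1, A 2 2, A 2 3, E 2 0, E 2 1, E 2 2;
     A 3 0, A 3 1, A 3 2, A 3 3, E 3 0, E 3 1, E 3 2;
     0, 0, 0, 0, D 2 0, D 2 1, D 2 2]

theorem emb_mul (A : M 4) (E : Matrix (Fin 4) (Fin 3) ℂ) (D : M 3) (W : Matrix (Fin 4) (Fin 3) ℂ)
    (h : A * W = E) : emb A D * bb W = yy A E D := by
  subst h
  ext i j
  fin_cases i <;> fin_cases j <;>
    simp [emb, bb, yy, Matrix.mul_apply, Fin.sum_univ_succ]

theorem yy_det (A : M 4) (E : Matrix (Fin 4) (Fin 3) ℂ) (D : M 3) (h : (yy A E D).det ≠ 0) :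
    A.det ≠ 0 ∧ D.det ≠ 0 := by
  constructor
  · intro h0
    obtain ⟨v, hv, hAv⟩ := Matrix.exists_mulVec_eq_zero_iff.2 h0
    apply h
    refine Matrix.exists_mulVec_eq_zero_iff.1 ⟨![v 0, v 1, v 2, v 3, 0, 0, 0], ?_, ?_⟩
    · intro h1
      apply hv
      ext i
      have a0 := congrFun h1 0
      have a1 := congrFun h1 1
      have a2 := congrFun h1 2
      have a3 := congrFun h1 3
      simp at a0 a1 a2 a3
      fin_cases i <;> simp_all
    · have a0 := congrFun hAv 0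
      have a1 := congrFun hAv 1
      have a2 := congrFun hAv 2
      have a3 := congrFun hAv 3
      simp [Matrix.mulVec, dotProduct, Fin.sum_univ_succ] at a0 a1 a2 a3
      ext i
      fin_cases i <;> simp [yy, Matrix.mulVec, dotProduct, Fin.sum_univ_succ] <;> assumption
  · intro h0
    obtain ⟨v, hv, hAv⟩ := Matrix.exists_vecMul_eq_zero_iff.2 h0
    apply h
    refine Matrix.exists_vecMul_eq_zero_iff.1 ⟨![0, 0, v 0, v 1, 0, 0, v 2], ?_, ?_⟩
    · intro h1
      apply hv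
      ext i
      have a0 := congrFun h1 2
      have a1 := congrFun h1 3
      have a2 := congrFun h1 6
      simp at a0 a1 a2
      fin_cases i <;> simp_all
    · have a0 := congrFun hAv 0
      have a1 := congrFun hAv 1
      have a2 := congrFun hAv 2
      simp [Matrix.vecMul, dotProduct, Fin.sum_univ_succ] at a0 a1 a2
      ext i
      fin_cases i <;> simp [yy, Matrix.vecMul, dotProduct, Fin.sum_univ_succ] <;> assumption

end PkgNF

open PkgNF in
theorem T_NF : S_NF := by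
  intro x hx hh0 he
  have e0 := he 0 (by decide)
  have e1 := he 1 (by decide)
  have e2 := he 2 (by decide)
  have e3 := he 3 (by decide)
  have e4 := he 4 (by decide)
  have e5 := he 5 (by decide)
  simp only [ev, hh, d2, map_mul, map_sub, eval_X] at hh0
  simp [ev, eqs, d3, d2] at e0 e1 e2 e3 e4 e5
  obtain ⟨hp, hq⟩ := mul_ne_zero_iff.1 hh0
  set p := x 0 0 * x 1 1 - x 0 1 * x 1 0 with hpdef
  set q := x 4 2 * x 5 3 - x 4 3 * x 5 2 with hqdef
  -- the coefficients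
  set a := (x 2 0 * x 1 1 - x 2 1 * x 1 0) / p with ha
  set b := (x 0 0 * x 2 1 - x 0 1 * x 2 0) / p with hb
  set c := (x 3 0 * x 1 1 - x 3 1 * x 1 0) / p with hc
  set d := (x 0 0 * x 3 1 - x 0 1 * x 3 0) / p with hd
  set e := (x 6 2 * x 5 3 - x 6 3 * x 5 2) / q with hee
  set f := (x 4 2 * x 6 3 - x 4 3 * x 6 2) / q with hf
  have pa : p * a = x 2 0 * x 1 1 - x 2 1 * x 1 0 := by rw [ha]; field_simp
  have pb : p * b = x 0 0 * x 2 1 - x 0 1 * x 2 0 := by rw [hb]; field_simp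
  have pc : p * c = x 3 0 * x 1 1 - x 3 1 * x 1 0 := by rw [hc]; field_simp
  have pd : p * d = x 0 0 * x 3 1 - x 0 1 * x 3 0 := by rw [hd]; field_simp
  have qe : q * e = x 6 2 * x 5 3 - x 6 3 * x 5 2 := by rw [hee]; field_simp
  have qf : q * f = x 4 2 * x 6 3 - x 4 3 * x 6 2 := by rw [hf]; field_simp
  clear_value a b c d e f
  have r20 : x 2 0 = a * x 0 0 + b * x 1 0 := by
    apply mul_left_cancel₀ hp
    linear_combination (-x 0 0) * pa + (-x 1 0) * pb
  have r21 : x 2 1 = a * x 0 1 + b * x 1 1 := by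
    apply mul_left_cancel₀ hp
    linear_combination (-x 0 1) * pa + (-x 1 1) * pb
  have r22 : x 2 2 = a * x 0 2 + b * x 1 2 := by
    apply mul_left_cancel₀ hp
    linear_combination (-x 0 2) * pa + (-x 1 2) * pb + e0
  have r23 : x 2 3 = a * x 0 3 + b * x 1 3 := by
    apply mul_left_cancel₀ hp
    linear_combination (-x 0 3) * pa + (-x 1 3) * pb + e2
  have r30 : x 3 0 = c * x 0 0 + d * x 1 0 := by
    apply mul_left_cancel₀ hp
    linear_combination (-x 0 0) * pc + (-x 1 0) * pd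
  have r31 : x 3 1 = c * x 0 1 + d * x 1 1 := by
    apply mul_left_cancel₀ hp
    linear_combination (-x 0 1) * pc + (-x 1 1) * pd
  have r32 : x 3 2 = c * x 0 2 + d * x 1 2 := by
    apply mul_left_cancel₀ hp
    linear_combination (-x 0 2) * pc + (-x 1 2) * pd + e1
  have r33 : x 3 3 = c * x 0 3 + d * x 1 3 := by
    apply mul_left_cancel₀ hp
    linear_combination (-x 0 3) * pc + (-x 1 3) * pd + e3
  have r62 : x 6 2 = e * x 4 2 + f * x 5 2 := by
    apply mul_left_cancel₀ hq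
    linear_combination (-x 4 2) * qe + (-x 5 2) * qf
  have r63 : x 6 3 = e * x 4 3 + f * x 5 3 := by
    apply mul_left_cancel₀ hq
    linear_combination (-x 4 3) * qe + (-x 5 3) * qf
  have r60 : x 6 0 = e * x 4 0 + f * x 5 0 := by
    apply mul_left_cancel₀ hq
    linear_combination (-x 4 0) * qe + (-x 5 0) * qf + e4
  have r61 : x 6 1 = e * x 4 1 + f * x 5 1 := by
    apply mul_left_cancel₀ hq
    linear_combination (-x 4 1) * qe + (-x 5 1) * qf + e5
  set A : M 4 := !![x 0 0, x 0 1, x 0 2, x 0 3; x 1 0, x 1 1, x 1 2, x 1 3;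
    x 4 0, x 4 1, x 4 2, x 4 3; x 5 0, x 5 1, x 5 2, x 5 3] with hA
  set E : Matrix (Fin 4) (Fin 3) ℂ := !![x 0 4, x 0 5, x 0 6; x 1 4, x 1 5, x 1 6;
    x 4 4, x 4 5, x 4 6; x 5 4, x 5 5, x 5 6] with hE
  set D : M 3 := !![x 2 4 - a * x 0 4 - b * x 1 4, x 2 5 - a * x 0 5 - b * x 1 5, x 2 6 - a * x 0 6 - b * x 1 6;
    x 3 4 - c * x 0 4 - d * x 1 4, x 3 5 - c * x 0 5 - d * x 1 5, x 3 6 - c * x 0 6 - d * x 1 6;
    x 6 4 - e * x 4 4 - f * x 5 4, x 6 5 - e * x 4 5 - f * x 5 5, x 6 6 - e * x 4 6 - f * x 5 6] with hD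
  have hxy : x = kk a b c d e f * yy A E D := by
    ext i j
    fin_cases i <;> fin_cases j <;>
      simp [kk, yy, hA, hE, hD, Matrix.mul_apply, Fin.sum_univ_succ] <;>
      assumption
  have hdet : (yy A E D).det ≠ 0 := by
    intro h0
    have h1 : x.det = 0 := by rw [hxy, Matrix.det_mul, h0, mul_zero]
    exact hx.ne_zero h1
  obtain ⟨hA0, hD0⟩ := yy_det A E D hdet
  have hAu : IsUnit A.det := isUnit_iff_ne_zero.2 hA0
  have hW : A * (A⁻¹ * E) = E := by
    rw [← Matrix.mul_assoc, Matrix.mul_nonsing_inv _ hAu, Matrix.one_mul]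
  refine ⟨kk a b c d e f, bb (A⁻¹ * E), A, D, kk_isK _ _ _ _ _ _, bb_isB _, hAu,
    isUnit_iff_ne_zero.2 hD0, ?_, rfl, rfl, rfl, rfl⟩
  rw [Matrix.mul_assoc, emb_mul A E D _ hW]
  exact hxy

end Pool.Agent.T2H41.CL
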