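import Pool.Agent.T2H41.CL.Stm

/-!
Package OPN of project CL (helper41), MP_25f57f_ag: independence of differentials is an open condition.
-/

set_option autoImplicit false

namespace Pool.Agent.T2H41.CL

open MvPolynomial

/-- a right inverse of a matrix with independent rows -/
lemma OPN_right {c : ℕ} {ι : Type} [Fintype ι] [DecidableEq ι] (A : Fin c → ι → ℂ)
    (hA : LinearIndependent ℂ A) : ∃ B : ι → Fin c → ℂ, ∀ i j, ∑ s, A i s * B s j = if i = j then 1 else 0 := by
  have hinj : Function.Injective (Fintype.linearCombination ℂ A) := by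
    rw [← LinearMap.ker_eq_bot, LinearMap.ker_eq_bot']
    intro v hv
    rw [Fintype.linearCombination_apply] at hv
    funext i
    exact Fintype.linearIndependent_iff.mp hA v hv i
  obtain ⟨L, hL⟩ := (Fintype.linearCombination ℂ A).exists_leftInverse_of_injective
    (LinearMap.ker_eq_bot.mpr hinj)
  refine ⟨fun s j => L (Pi.single s 1) j, fun i j => ?_⟩
  have h1 : L (A i) = Pi.single i 1 := by
    have h2 := congrArg (fun g => g (Pi.single i 1)) hL
    simp only [LinearMap.comp_apply, LinearMap.id_apply] at h2
    rw [Fintype.linearCombination_apply_single, one_smul] at h2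
    exact h2
  have h3 : A i = ∑ s, A i s • (Pi.single s (1 : ℂ) : ι → ℂ) := by
    funext s
    simp [Finset.sum_apply, Pi.single_apply]
  have h4 : L (A i) j = ∑ s, A i s * L (Pi.single s 1) j := by
    conv_lhs => rw [h3]
    rw [map_sum, Finset.sum_apply]
    refine Finset.sum_congr rfl fun s _ => ?_
    rw [map_smul, Pi.smul_apply, smul_eq_mul]
  rw [← h4, h1, Pi.single_apply]
  by_cases h : i = j
  · rw [if_pos h, if_pos h.symm]
  · rw [if_neg h, if_neg (Ne.symm h)]

theorem T_OPN : S_OPN := by
  intro n c f x hx
  obtain ⟨B, hB⟩ := OPN_right _ hx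
  let M : Matrix (Fin c) (Fin c) (MvPolynomial (Fin n × Fin n) ℂ) :=
    Matrix.of fun i j => ∑ s, pderiv s (f i) * MvPolynomial.C (B s j)
  have hM : ∀ z : Matrix (Fin n) (Fin n) ℂ, ev z M.det =
      (Matrix.of fun i j => ∑ s, ev z (pderiv s (f i)) * B s j : Matrix (Fin c) (Fin c) ℂ).det := by
    intro z
    unfold ev
    rw [RingHom.map_det]
    congr 1
    ext i j
    simp [M, RingHom.mapMatrix_apply, Matrix.map_apply, map_sum]
  refine ⟨M.det, ?_, ?_⟩
  · rw [hM]
    have h1 : (Matrix.of fun i j => ∑ s, ev x (pderiv s (f i)) * B s j : Matrix (Fin c) (Fin c) ℂ) = 1 := by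
      ext i j
      rw [Matrix.of_apply, hB i j, Matrix.one_apply]
    rw [h1, Matrix.det_one]
    exact one_ne_zero
  · intro z hz
    rw [hM] at hz
    rw [Fintype.linearIndependent_iff]
    intro v hv
    have h2 : v = 0 := by
      apply Matrix.eq_zero_of_vecMul_eq_zero hz
      funext j
      rw [Matrix.vecMul, dotProduct]
      simp only [Matrix.of_apply, Pi.zero_apply]
      calc ∑ i, v i * ∑ s, ev z (pderiv s (f i)) * B s j
          = ∑ i, ∑ s, v i * ev z (pderiv s (f i)) * B s j := by
            refine Finset.sum_congr rfl fun i _ => ?_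
            rw [Finset.mul_sum]
            exact Finset.sum_congr rfl fun s _ => by ring
        _ = ∑ s, (∑ i, v i * ev z (pderiv s (f i))) * B s j := by
            rw [Finset.sum_comm]
            exact Finset.sum_congr rfl fun s _ => by rw [Finset.sum_mul]
        _ = 0 := by
            refine Finset.sum_eq_zero fun s _ => ?_
            have h3 := congrFun hv s
            rw [Finset.sum_apply] at h3
            simp only [Pi.smul_apply, smul_eq_mul, Pi.zero_apply] at h3
            rw [h3, zero_mul]
    intro i
    exact congrFun h2 i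

end Pool.Agent.T2H41.CL
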