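import Pool.Agent.T2H41.CL.Stm

/-!
The matrices of the clans.
-/

set_option autoImplicit false

namespace Pool.Agent.T2H41.CL

open Matrix

theorem REP_gam : rep 4 gam = !![1, 0, 0, 1, 0, 0, 0;
     0, 1, 0, 0, 0, 0, 0;
     0, 0, 0, 0, 1, 0, 1;
     0, 0, 0, 0, 0, 1, 0;
     1, 0, 0, -1, 0, 0, 0;
     0, 0, 1, 0, 0, 0, 0;
     0, 0, 0, 0, 1, 0, -1] := by
  have hA : ∀ i, posA gam i = ![0, 1, 2, 2, 2, 3, 4] i := by decide
  have hB : ∀ i, posB gam i = ![0, 1, 1, 2, 2, 3, 3] i := by decide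
  have hO : ∀ i, Opens gam i ↔ i = 0 ∨ i = 4 := by decide
  have hR : ∀ i j, Arc gam i j ↔ (i = 0 ∧ j = 3) ∨ (i = 4 ∧ j = 6) := by decide
  have hP : ∀ i, gam i = .plus ↔ i = 1 ∨ i = 5 := by decide
  have hM : ∀ i, gam i = .minus ↔ i = 2 := by decide
  ext r i
  fin_cases r <;> fin_cases i <;>
    simp [rep, hA, hB, hO, hR, hP, hM, Fin.sum_univ_succ]

theorem REP_alp : rep 4 alp = a0 := by
  have hA : ∀ i, posA alp i = ![0, 1, 2, 2, 2, 3, 4] i := by decide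
  have hB : ∀ i, posB alp i = ![0, 0, 0, 1, 2, 3, 3] i := by decide
  have hO : ∀ i, Opens alp i ↔ i = 4 := by decide
  have hR : ∀ i j, Arc alp i j ↔ (i = 4 ∧ j = 6) := by decide
  have hP : ∀ i, alp i = .plus ↔ i = 0 ∨ i = 1 ∨ i = 5 := by decide
  have hM : ∀ i, alp i = .minus ↔ i = 2 ∨ i = 3 := by decide
  ext r i
  fin_cases r <;> fin_cases i <;>
    simp [rep, hA, hB, hO, hR, hP, hM, a0, Fin.sum_univ_succ]

theorem REP_gam4 : rep 2 gam4 = !![1, 0, 0, 1; 0, 1, 0, 0; 1, 0, 0, -1; 0, 0, 1, 0] := by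
  have hA : ∀ i, posA gam4 i = ![0, 1, 2, 2] i := by decide
  have hB : ∀ i, posB gam4 i = ![0, 1, 1, 2] i := by decide
  have hO : ∀ i, Opens gam4 i ↔ i = 0 := by decide
  have hR : ∀ i j, Arc gam4 i j ↔ (i = 0 ∧ j = 3) := by decide
  have hP : ∀ i, gam4 i = .plus ↔ i = 1 := by decide
  have hM : ∀ i, gam4 i = .minus ↔ i = 2 := by decide
  ext r i
  fin_cases r <;> fin_cases i <;>
    simp [rep, hA, hB, hO, hR, hP, hM, Fin.sum_univ_succ]

theorem REP_gam3 : rep 2 gam3 = !![1, 0, 1; 0, 1, 0; 1, 0, -1] := by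
  have hA : ∀ i, posA gam3 i = ![0, 1, 2] i := by decide
  have hB : ∀ i, posB gam3 i = ![0, 1, 1] i := by decide
  have hO : ∀ i, Opens gam3 i ↔ i = 0 := by decide
  have hR : ∀ i j, Arc gam3 i j ↔ (i = 0 ∧ j = 2) := by decide
  have hP : ∀ i, gam3 i = .plus ↔ i = 1 := by decide
  have hM : ∀ i, ¬ gam3 i = .minus := by decide
  ext r i
  fin_cases r <;> fin_cases i <;>
    simp [rep, hA, hB, hO, hR, hP, hM, Fin.sum_univ_succ]

theorem REP_unit {n : ℕ} {A B : M n} (h : A * B = 1) : IsUnit A.det := by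
  have h1 : A.det * B.det = 1 := by rw [← Matrix.det_mul, h, Matrix.det_one]
  exact IsUnit.of_mul_eq_one _ h1

theorem T_REP : S_REP := by
  refine ⟨REP_gam, REP_alp, REP_gam4, REP_gam3, ?_, ?_, ?_, ?_⟩
  · rw [REP_gam]
    refine REP_unit (B := !![1/2, 0, 0, 0, 1/2, 0, 0;
      0, 1, 0, 0, 0, 0, 0;
      0, 0, 0, 0, 0, 1, 0;
      1/2, 0, 0, 0, -1/2, 0, 0;
      0, 0, 1/2, 0, 0, 0, 1/2;
      0, 0, 0, 1, 0, 0, 0;
      0, 0, 1/2, 0, 0, 0, -1/2]) ?_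
    ext r i
    fin_cases r <;> fin_cases i <;> simp [Matrix.mul_apply, Fin.sum_univ_succ] <;> norm_num
  · rw [REP_alp]
    refine REP_unit (B := !![1, 0, 0, 0, 0, 0, 0;
      0, 1, 0, 0, 0, 0, 0;
      0, 0, 0, 0, 1, 0, 0;
      0, 0, 0, 0, 0, 1, 0;
      0, 0, 1/2, 0, 0, 0, 1/2;
      0, 0, 0, 1, 0, 0, 0;
      0, 0, 1/2, 0, 0, 0, -1/2]) ?_
    ext r i
    fin_cases r <;> fin_cases i <;> simp [a0, Matrix.mul_apply, Fin.sum_univ_succ] <;> norm_num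
  · rw [REP_gam4]
    refine REP_unit (B := !![1/2, 0, 1/2, 0;
      0, 1, 0, 0;
      0, 0, 0, 1;
      1/2, 0, -1/2, 0]) ?_
    ext r i
    fin_cases r <;> fin_cases i <;> simp [Matrix.mul_apply, Fin.sum_univ_succ] <;> norm_num
  · rw [REP_gam3]
    refine REP_unit (B := !![1/2, 0, 1/2;
      0, 1, 0;
      1/2, 0, -1/2]) ?_
    ext r i
    fin_cases r <;> fin_cases i <;> simp [Matrix.mul_apply, Fin.sum_univ_succ] <;> norm_num

end Pool.Agent.T2H41.CL
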