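import Pool.Agent.T2H41.CL.Stm

/-!
# Package STB: closures of orbits are stable
-/

set_option autoImplicit false

namespace Pool.Agent.T2H41.CL

open MvPolynomial Matrix

/-- the polynomials `f (k z b)` -/
lemma STB_sub {n : ℕ} (k b : M n) (f : P n) : ∃ g : P n, ∀ z : M n, ev z g = ev (k * z * b) f := by
  refine ⟨bind₁ (fun s : Fin n × Fin n => ∑ j, (∑ i, C (k s.1 i) * X (i, j)) * C (b j s.2)) f, fun z => ?_⟩
  unfold ev
  change eval₂Hom (RingHom.id ℂ) _ (bind₁ _ f) = eval₂Hom (RingHom.id ℂ) _ f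
  rw [eval₂Hom_bind₁]
  congr 2
  funext s
  simp only [map_sum, map_mul, eval₂Hom_C, eval₂Hom_X', RingHom.id_apply, Matrix.mul_apply]

lemma STB_K {n p : ℕ} {k k' : M n} (h : IsK p k) (h' : IsK p k') : IsK p (k * k') := by
  refine ⟨by rw [det_mul]; exact h.1.mul h'.1, fun i j hij => ?_⟩
  rw [Matrix.mul_apply]
  refine Finset.sum_eq_zero fun l _ => ?_
  by_cases h1 : ((i : ℕ) < p ↔ (l : ℕ) < p)
  · have h2 : ¬ ((l : ℕ) < p ↔ (j : ℕ) < p) := fun h2 => hij (h1.trans h2)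
    rw [h'.2 l j h2, mul_zero]
  · rw [h.2 i l h1, zero_mul]

lemma STB_B {n : ℕ} {b b' : M n} (h : IsB b) (h' : IsB b') : IsB (b * b') := by
  refine ⟨by rw [det_mul]; exact h.1.mul h'.1, fun i j hij => ?_⟩
  rw [Matrix.mul_apply]
  refine Finset.sum_eq_zero fun l _ => ?_
  rcases lt_or_ge l i with h1 | h1
  · rw [h.2 i l h1, zero_mul]
  · rw [h'.2 l j (lt_of_lt_of_le hij h1), mul_zero]

lemma STB_K1 {n p : ℕ} : IsK p (1 : M n) := by
  refine ⟨by simp, fun i j hij => ?_⟩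
  have : i ≠ j := by
    rintro rfl
    exact hij Iff.rfl
  exact Matrix.one_apply_ne this

lemma STB_B1 {n : ℕ} : IsB (1 : M n) := by
  refine ⟨by simp, fun i j hij => ?_⟩
  exact Matrix.one_apply_ne hij.ne'

lemma STB_Binv {n : ℕ} {b : M n} (h : IsB b) : IsB b⁻¹ := by
  refine ⟨by rw [Matrix.isUnit_nonsing_inv_det_iff]; exact h.1, fun i j hij => ?_⟩
  haveI : Invertible b := Matrix.invertibleOfIsUnitDet b h.1
  have hb : BlockTriangular b id := fun i j hij => h.2 i j hij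
  exact blockTriangular_inv_of_blockTriangular hb hij

lemma STB_Kinv {n p : ℕ} {k : M n} (h : IsK p k) : IsK p k⁻¹ := by
  refine ⟨by rw [Matrix.isUnit_nonsing_inv_det_iff]; exact h.1, fun i j hij => ?_⟩
  haveI : Invertible k := Matrix.invertibleOfIsUnitDet k h.1
  have h1 : BlockTriangular k (fun i : Fin n => if (i : ℕ) < p then (0 : ℕ) else 1) := by
    intro i j hij
    refine h.2 i j fun hc => ?_
    by_cases hi : (i : ℕ) < p
    · simp [hi, hc.1 hi] at hij
    · have hj : ¬ (j : ℕ) < p := fun hj => hi (hc.2 hj)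
      simp [hi, hj] at hij
  have h2 : BlockTriangular k (fun i : Fin n => if (i : ℕ) < p then (1 : ℕ) else 0) := by
    intro i j hij
    refine h.2 i j fun hc => ?_
    by_cases hi : (i : ℕ) < p
    · simp [hi, hc.1 hi] at hij
    · have hj : ¬ (j : ℕ) < p := fun hj => hi (hc.2 hj)
      simp [hi, hj] at hij
  by_cases hi : (i : ℕ) < p
  · have hj : ¬ (j : ℕ) < p := fun hj => hij ⟨fun _ => hj, fun _ => hi⟩
    exact blockTriangular_inv_of_blockTriangular h2 (by simp [hi, hj])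
  · have hj : (j : ℕ) < p := by
      by_contra hj
      exact hij ⟨fun h => absurd h hi, fun h => absurd h hj⟩
    exact blockTriangular_inv_of_blockTriangular h1 (by simp [hi, hj])

lemma STB_one {n p : ℕ} {γ : Str n} {k b x : M n} (hk : IsK p k) (hb : IsB b) (hx : x ∈ Y p γ) :
    k * x * b ∈ Y p γ := by
  refine ⟨by rw [det_mul, det_mul]; exact (hk.1.mul hx.1).mul hb.1, fun f hf => ?_⟩
  obtain ⟨g, hg⟩ := STB_sub k b f
  rw [← hg]
  refine hx.2 g ?_
  rintro s ⟨k0, b0, hk0, hb0, rfl⟩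
  rw [hg]
  refine hf _ ⟨k * k0, b0 * b, STB_K hk hk0, STB_B hb0 hb, ?_⟩
  simp only [Matrix.mul_assoc]

theorem T_STB : S_STB := by
  intro n p γ
  refine ⟨fun k b x hk hb hx => STB_one hk hb hx, fun k b x hk hb hx => ?_, fun hd => ⟨?_, ?_⟩⟩
  · have h := STB_one (STB_Kinv hk) (STB_Binv hb) hx
    have e : k⁻¹ * (k * x * b) * b⁻¹ = x := by
      rw [Matrix.mul_assoc k x b, Matrix.nonsing_inv_mul_cancel_left _ _ hk.1,
        Matrix.mul_nonsing_inv_cancel_right _ _ hb.1]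
    rwa [e] at h
  · rintro s ⟨k0, b0, hk0, hb0, rfl⟩
    exact ⟨by rw [det_mul, det_mul]; exact (hk0.1.mul hd).mul hb0.1,
      fun f hf => hf _ ⟨k0, b0, hk0, hb0, rfl⟩⟩
  · exact ⟨1, 1, STB_K1, STB_B1, by simp⟩

end Pool.Agent.T2H41.CL
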