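import Pool.Agent.T2H41.CL.Stm

/-!
The equations vanish on the orbit.
-/

set_option autoImplicit false

namespace Pool.Agent.T2H41.CL

open MvPolynomial Matrix

theorem VG_d2 (x : M 7) (r0 r1 c0 c1 : Fin 7) :
    ev x (d2 r0 r1 c0 c1) = x r0 c0 * x r1 c1 - x r0 c1 * x r1 c0 := by
  simp [ev, d2]

theorem VG_d3 (x : M 7) (r0 r1 r2 c0 c1 c2 : Fin 7) :
    ev x (d3 r0 r1 r2 c0 c1 c2) = x r0 c0 * (x r1 c1 * x r2 c2 - x r1 c2 * x r2 c1)
      - x r0 c1 * (x r1 c0 * x r2 c2 - x r1 c2 * x r2 c0)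
      + x r0 c2 * (x r1 c0 * x r2 c1 - x r1 c1 * x r2 c0) := by
  simp [ev, d3, d2]

/-- the matrix of `γ` -/
def VG_g : M 7 := !![1, 0, 0, 1, 0, 0, 0;
     0, 1, 0, 0, 0, 0, 0;
     0, 0, 0, 0, 1, 0, 1;
     0, 0, 0, 0, 0, 1, 0;
     1, 0, 0, -1, 0, 0, 0;
     0, 0, 1, 0, 0, 0, 0;
     0, 0, 0, 0, 1, 0, -1]

theorem VG_mul (k b : M 7) (r c : Fin 7) : (k * VG_g * b) r c =
    (k r 0 + k r 4) * b 0 c + k r 1 * b 1 c + k r 5 * b 2 c + (k r 0 - k r 4) * b 3 c +
      (k r 2 + k r 6) * b 4 c + k r 3 * b 5 c + (k r 2 - k r 6) * b 6 c := by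
  have h : ∀ j : Fin 7, (k * VG_g) r j = ![k r 0 + k r 4, k r 1, k r 5, k r 0 - k r 4,
      k r 2 + k r 6, k r 3, k r 2 - k r 6] j := by
    intro j
    rw [Matrix.mul_apply, Fin.sum_univ_seven]
    fin_cases j <;> simp [VG_g] <;> ring
  rw [Matrix.mul_apply, Fin.sum_univ_seven]
  simp only [h]
  rfl

theorem T_VG (hREP : S_REP) : S_VG := by
  rintro x ⟨k, b, hk, hb, hx⟩
  have hx' : x = k * VG_g * b := by rw [hx, hREP.1]; rfl
  have hu : ∀ r c : Fin 7, (r : ℕ) < 4 → (c : ℕ) < 4 →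
      x r c = k r 0 * (b 0 c + b 3 c) + k r 1 * b 1 c := by
    intro r c hr hc
    have k4 : k r 4 = 0 := hk.2 r 4 (by simp; omega)
    have k5 : k r 5 = 0 := hk.2 r 5 (by simp; omega)
    have b4 : b 4 c = 0 := hb.2 4 c (by rw [Fin.lt_def]; simpa using hc)
    have b5 : b 5 c = 0 := hb.2 5 c (by rw [Fin.lt_def]; simp; omega)
    have b6 : b 6 c = 0 := hb.2 6 c (by rw [Fin.lt_def]; simp; omega)
    rw [hx', VG_mul, k4, k5, b4, b5, b6]
    ring
  have hl : ∀ r c : Fin 7, 4 ≤ (r : ℕ) → (c : ℕ) < 4 →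
      x r c = k r 4 * (b 0 c - b 3 c) + k r 5 * b 2 c := by
    intro r c hr hc
    have k0 : k r 0 = 0 := hk.2 r 0 (by simp; omega)
    have k1 : k r 1 = 0 := hk.2 r 1 (by simp; omega)
    have b4 : b 4 c = 0 := hb.2 4 c (by rw [Fin.lt_def]; simpa using hc)
    have b5 : b 5 c = 0 := hb.2 5 c (by rw [Fin.lt_def]; simp; omega)
    have b6 : b 6 c = 0 := hb.2 6 c (by rw [Fin.lt_def]; simp; omega)
    rw [hx', VG_mul, k0, k1, b4, b5, b6]
    ring
  have b20 : b 2 0 = 0 := hb.2 2 0 (by decide)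
  have b21 : b 2 1 = 0 := hb.2 2 1 (by decide)
  have b30 : b 3 0 = 0 := hb.2 3 0 (by decide)
  have b31 : b 3 1 = 0 := hb.2 3 1 (by decide)
  intro i
  fin_cases i
  · change ev x (d3 0 1 2 0 1 2) = 0
    rw [VG_d3]
    simp only [hu _ _ (show ((0 : Fin 7) : ℕ) < 4 by decide) (show ((0 : Fin 7) : ℕ) < 4 by decide),
      hu 0 1 (by decide) (by decide), hu 0 2 (by decide) (by decide), hu 1 0 (by decide) (by decide),
      hu 1 1 (by decide) (by decide), hu 1 2 (by decide) (by decide), hu 2 0 (by decide) (by decide),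
      hu 2 1 (by decide) (by decide), hu 2 2 (by decide) (by decide)]
    ring
  · change ev x (d3 0 1 3 0 1 2) = 0
    rw [VG_d3]
    simp only [hu 0 0 (by decide) (by decide),
      hu 0 1 (by decide) (by decide), hu 0 2 (by decide) (by decide), hu 1 0 (by decide) (by decide),
      hu 1 1 (by decide) (by decide), hu 1 2 (by decide) (by decide), hu 3 0 (by decide) (by decide),
      hu 3 1 (by decide) (by decide), hu 3 2 (by decide) (by decide)]
    ring
  · change ev x (d3 0 1 2 0 1 3) = 0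
    rw [VG_d3]
    simp only [hu 0 0 (by decide) (by decide),
      hu 0 1 (by decide) (by decide), hu 0 3 (by decide) (by decide), hu 1 0 (by decide) (by decide),
      hu 1 1 (by decide) (by decide), hu 1 3 (by decide) (by decide), hu 2 0 (by decide) (by decide),
      hu 2 1 (by decide) (by decide), hu 2 3 (by decide) (by decide)]
    ring
  · change ev x (d3 0 1 3 0 1 3) = 0
    rw [VG_d3]
    simp only [hu 0 0 (by decide) (by decide),
      hu 0 1 (by decide) (by decide), hu 0 3 (by decide) (by decide), hu 1 0 (by decide) (by decide),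
      hu 1 1 (by decide) (by decide), hu 1 3 (by decide) (by decide), hu 3 0 (by decide) (by decide),
      hu 3 1 (by decide) (by decide), hu 3 3 (by decide) (by decide)]
    ring
  · change ev x (d3 4 5 6 0 2 3) = 0
    rw [VG_d3]
    simp only [hl 4 0 (by decide) (by decide), hl 4 2 (by decide) (by decide),
      hl 4 3 (by decide) (by decide), hl 5 0 (by decide) (by decide), hl 5 2 (by decide) (by decide),
      hl 5 3 (by decide) (by decide), hl 6 0 (by decide) (by decide), hl 6 2 (by decide) (by decide),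
      hl 6 3 (by decide) (by decide)]
    ring
  · change ev x (d3 4 5 6 1 2 3) = 0
    rw [VG_d3]
    simp only [hl 4 1 (by decide) (by decide), hl 4 2 (by decide) (by decide),
      hl 4 3 (by decide) (by decide), hl 5 1 (by decide) (by decide), hl 5 2 (by decide) (by decide),
      hl 5 3 (by decide) (by decide), hl 6 1 (by decide) (by decide), hl 6 2 (by decide) (by decide),
      hl 6 3 (by decide) (by decide)]
    ring
  · change ev x (d2 4 5 0 1) = 0
    rw [VG_d2]
    simp only [hl 4 0 (by decide) (by decide), hl 4 1 (by decide) (by decide),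
      hl 5 0 (by decide) (by decide), hl 5 1 (by decide) (by decide), b20, b21, b30, b31]
    ring

end Pool.Agent.T2H41.CL
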