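import Pool.Agent.T2H41.CL.Stm

set_option autoImplicit false

namespace Pool.Agent.T2H41.CL

open MvPolynomial Matrix

private theorem YA_k (a b c d e f g h : ℂ) (i j : Fin 4) (hij : ¬ ((i : ℕ) < 2 ↔ (j : ℕ) < 2)) :
    (!![a, b, 0, 0; c, d, 0, 0; 0, 0, e, f; 0, 0, g, h] : M 4) i j = 0 := by
  fin_cases i <;> fin_cases j <;> first | rfl | exact absurd (by decide) hij

private theorem YA_b (a b c d e f g h x y : ℂ) (i j : Fin 4) (hij : j < i) :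
    (!![a, b, c, d; 0, e, f, g; 0, 0, h, x; 0, 0, 0, y] : M 4) i j = 0 := by
  fin_cases i <;> fin_cases j <;> first | rfl | exact absurd hij (by decide)

theorem T_YA (hREP : S_REP) : S_YA := by
  intro A hA h0 h1 h2
  obtain ⟨-, -, hR, -⟩ := hREP
  obtain ⟨D0, hD0⟩ : ∃ D0, D0 = A 0 0 * A 1 1 - A 0 1 * A 1 0 := ⟨_, rfl⟩
  obtain ⟨D1, hD1⟩ : ∃ D1, D1 = A 2 0 * A 3 2 - A 2 2 * A 3 0 := ⟨_, rfl⟩
  rw [← hD0] at h1
  rw [← hD1] at h2
  obtain ⟨la, hla⟩ : ∃ la, la * D1 = A 2 1 * A 3 2 - A 2 2 * A 3 1 :=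
    ⟨(A 2 1 * A 3 2 - A 2 2 * A 3 1) / D1, by field_simp⟩
  have hw0 : la * A 2 0 = A 2 1 := by
    apply mul_right_cancel₀ h2
    linear_combination A 2 0 * hla - A 2 2 * h0 - A 2 1 * hD1
  have hw1 : la * A 3 0 = A 3 1 := by
    apply mul_right_cancel₀ h2
    linear_combination A 3 0 * hla - A 3 2 * h0 - A 3 1 * hD1
  obtain ⟨s0, hs0⟩ : ∃ s, s = A 0 1 - la * A 0 0 := ⟨_, rfl⟩
  obtain ⟨s1, hs1⟩ : ∃ s, s = A 1 1 - la * A 1 0 := ⟨_, rfl⟩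
  have hds : A 0 0 * s1 - s0 * A 1 0 = D0 := by
    rw [hs0, hs1, hD0]
    ring
  obtain ⟨mu, hmu⟩ : ∃ x, x * D0 = A 0 2 * s1 - s0 * A 1 2 :=
    ⟨(A 0 2 * s1 - s0 * A 1 2) / D0, by field_simp⟩
  obtain ⟨nu, hnu⟩ : ∃ x, x * D0 = A 0 0 * A 1 2 - A 0 2 * A 1 0 :=
    ⟨(A 0 0 * A 1 2 - A 0 2 * A 1 0) / D0, by field_simp⟩
  have hu0 : mu * A 0 0 + nu * s0 = A 0 2 := by
    apply mul_right_cancel₀ h1
    linear_combination A 0 0 * hmu + s0 * hnu + A 0 2 * hds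
  have hu1 : mu * A 1 0 + nu * s1 = A 1 2 := by
    apply mul_right_cancel₀ h1
    linear_combination A 1 0 * hmu + s1 * hnu + A 1 2 * hds
  obtain ⟨r0, hr0⟩ : ∃ s, s = A 2 2 - mu * A 2 0 := ⟨_, rfl⟩
  obtain ⟨r1, hr1⟩ : ∃ s, s = A 3 2 - mu * A 3 0 := ⟨_, rfl⟩
  have hdr : A 2 0 * r1 - r0 * A 3 0 = D1 := by
    rw [hr0, hr1, hD1]
    ring
  obtain ⟨pp, hpp⟩ : ∃ x, x * D0 = A 0 3 * s1 - s0 * A 1 3 :=
    ⟨(A 0 3 * s1 - s0 * A 1 3) / D0, by field_simp⟩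
  obtain ⟨x1, hx1⟩ : ∃ x, x * D0 = A 0 0 * A 1 3 - A 0 3 * A 1 0 :=
    ⟨(A 0 0 * A 1 3 - A 0 3 * A 1 0) / D0, by field_simp⟩
  obtain ⟨qq, hqq⟩ : ∃ x, x * D1 = A 2 3 * r1 - r0 * A 3 3 :=
    ⟨(A 2 3 * r1 - r0 * A 3 3) / D1, by field_simp⟩
  obtain ⟨x2, hx2⟩ : ∃ x, x * D1 = A 2 0 * A 3 3 - A 2 3 * A 3 0 :=
    ⟨(A 2 0 * A 3 3 - A 2 3 * A 3 0) / D1, by field_simp⟩
  have e0 : pp * A 0 0 + x1 * s0 = A 0 3 := by
    apply mul_right_cancel₀ h1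
    linear_combination A 0 0 * hpp + s0 * hx1 + A 0 3 * hds
  have e1 : pp * A 1 0 + x1 * s1 = A 1 3 := by
    apply mul_right_cancel₀ h1
    linear_combination A 1 0 * hpp + s1 * hx1 + A 1 3 * hds
  have e2 : qq * A 2 0 + x2 * r0 = A 2 3 := by
    apply mul_right_cancel₀ h2
    linear_combination A 2 0 * hqq + r0 * hx2 + A 2 3 * hdr
  have e3 : qq * A 3 0 + x2 * r1 = A 3 3 := by
    apply mul_right_cancel₀ h2
    linear_combination A 3 0 * hqq + r1 * hx2 + A 3 3 * hdr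
  let k : M 4 := !![A 0 0, s0, 0, 0; A 1 0, s1, 0, 0; 0, 0, A 2 0, r0; 0, 0, A 3 0, r1]
  let b : M 4 := !![1, la, mu, (pp + qq) / 2; 0, 1, nu, x1; 0, 0, 1, x2; 0, 0, 0, (pp - qq) / 2]
  have hprod : A = k * rep 2 gam4 * b := by
    rw [hR]
    ext i j
    fin_cases i <;> fin_cases j <;>
      simp [k, b, Matrix.mul_apply, Fin.sum_univ_succ]
    · linear_combination -hs0
    · linear_combination -hu0
    · linear_combination -e0
    · linear_combination -hs1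
    · linear_combination -hu1
    · linear_combination -e1
    · linear_combination -hw0
    · linear_combination -hr0
    · linear_combination -e2
    · linear_combination -hw1
    · linear_combination -hr1
    · linear_combination -e3
  have hkdet : k.det = D0 * D1 := by
    simp [k, Matrix.det_succ_row_zero, Fin.sum_univ_succ, Fin.succAbove]
    linear_combination (A 2 0 * r1 - r0 * A 3 0) * hds + D0 * hdr
  refine ⟨k, b, ⟨?_, ?_⟩, ⟨?_, ?_⟩, hprod⟩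
  · rw [hkdet]
    exact (mul_ne_zero h1 h2).isUnit
  · exact YA_k _ _ _ _ _ _ _ _
  · have h5 := congrArg Matrix.det hprod
    rw [Matrix.det_mul] at h5
    rw [h5] at hA
    exact isUnit_of_mul_isUnit_right hA
  · exact YA_b _ _ _ _ _ _ _ _ _ _

end Pool.Agent.T2H41.CL
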