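import Pool.Agent.T2H41.CL.Stm

set_option autoImplicit false

namespace Pool.Agent.T2H41.CL

open MvPolynomial Matrix

lemma YB_fin (a b c : ℂ) (ha : a ≠ 0) : ∃ T : Finset ℂ, ∀ t : ℂ, a * t ^ 2 + b * t + c = 0 → t ∈ T := by
  classical
  set p : Polynomial ℂ := Polynomial.C a * Polynomial.X ^ 2 + Polynomial.C b * Polynomial.X +
    Polynomial.C c with hp
  have hp0 : p ≠ 0 := by
    intro h0
    apply ha
    have := congrArg (fun r => Polynomial.coeff r 2) h0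
    simpa [hp, Polynomial.coeff_X, Polynomial.coeff_C] using this
  refine ⟨p.roots.toFinset, fun t ht => ?_⟩
  rw [Multiset.mem_toFinset, Polynomial.mem_roots hp0, Polynomial.IsRoot.def]
  simpa [hp] using ht

lemma YB_aux (hYA : S_YA) (hLIN : S_LIN) (A : M 4) (hA : IsUnit A.det) (a b c d z0 z1 : ℂ)
    (hq : ∀ t : ℂ, (A 2 0 + t * a) * (A 3 1 + t * d) - (A 2 1 + t * b) * (A 3 0 + t * c) = 0)
    (hz : a * z1 - z0 * c ≠ 0) : A ∈ Y 2 gam4 := by
  obtain ⟨hdet, hlin⟩ := hLIN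
  refine ⟨hA, fun f hf => ?_⟩
  set D : M 4 := !![1, 0, 0, 0; 0, 1, 0, 0; a, b, z0, 0; c, d, z1, 0] with hD
  have e00 : ∀ t : ℂ, (A + t • D) 0 0 = A 0 0 + t := by intro t; simp [hD]
  have e01 : ∀ t : ℂ, (A + t • D) 0 1 = A 0 1 := by intro t; simp [hD]
  have e10 : ∀ t : ℂ, (A + t • D) 1 0 = A 1 0 := by intro t; simp [hD]
  have e11 : ∀ t : ℂ, (A + t • D) 1 1 = A 1 1 + t := by intro t; simp [hD]
  have e20 : ∀ t : ℂ, (A + t • D) 2 0 = A 2 0 + t * a := by intro t; simp [hD]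
  have e21 : ∀ t : ℂ, (A + t • D) 2 1 = A 2 1 + t * b := by intro t; simp [hD]
  have e22 : ∀ t : ℂ, (A + t • D) 2 2 = A 2 2 + t * z0 := by intro t; simp [hD]
  have e30 : ∀ t : ℂ, (A + t • D) 3 0 = A 3 0 + t * c := by intro t; simp [hD]
  have e31 : ∀ t : ℂ, (A + t • D) 3 1 = A 3 1 + t * d := by intro t; simp [hD]
  have e32 : ∀ t : ℂ, (A + t • D) 3 2 = A 3 2 + t * z1 := by intro t; simp [hD]
  set m1 : P 4 := X (0, 0) * X (1, 1) - X (0, 1) * X (1, 0) with hm1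
  set m2 : P 4 := X (2, 0) * X (3, 2) - X (2, 2) * X (3, 0) with hm2
  have v1 : ∀ t : ℂ, ev (A + t • D) m1 = (A 0 0 + t) * (A 1 1 + t) - A 0 1 * A 1 0 := by
    intro t
    rw [← e00 t, ← e11 t, ← e01 t, ← e10 t]
    simp [ev, hm1]
  have v2 : ∀ t : ℂ, ev (A + t • D) m2 =
      (A 2 0 + t * a) * (A 3 2 + t * z1) - (A 2 2 + t * z0) * (A 3 0 + t * c) := by
    intro t
    rw [← e20 t, ← e32 t, ← e22 t, ← e30 t]
    simp [ev, hm2]
  obtain ⟨T1, hT1⟩ := YB_fin 1 (A 0 0 + A 1 1) (A 0 0 * A 1 1 - A 0 1 * A 1 0) one_ne_zero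
  obtain ⟨T2, hT2⟩ := YB_fin (a * z1 - z0 * c)
    (A 2 0 * z1 + a * A 3 2 - A 2 2 * c - z0 * A 3 0) (A 2 0 * A 3 2 - A 2 2 * A 3 0) hz
  have h0 : ∃ t : ℂ, ev (A + t • D) (detP 4) ≠ 0 := by
    refine ⟨0, ?_⟩
    rw [zero_smul, add_zero, hdet]
    exact hA.ne_zero
  classical
  obtain ⟨t0, ht0, hdt0⟩ := (hlin 4 A D (detP 4) h0).1 (T1 ∪ T2)
  rw [Finset.mem_union, not_or] at ht0
  have w1 : ev (A + t0 • D) m1 ≠ 0 := by
    intro h
    apply ht0.1
    apply hT1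
    rw [v1] at h
    linear_combination h
  have w2 : ev (A + t0 • D) m2 ≠ 0 := by
    intro h
    apply ht0.2
    apply hT2
    rw [v2] at h
    linear_combination h
  have evm : ∀ (x : M 4) (r s : P 4), ev x (r * s) = ev x r * ev x s := by
    intro x r s
    simp [ev]
  have hg : ∃ t : ℂ, ev (A + t • D) (detP 4 * m1 * m2) ≠ 0 := by
    refine ⟨t0, ?_⟩
    rw [evm, evm]
    exact mul_ne_zero (mul_ne_zero hdt0 w1) w2
  have key := ((hlin 4 A D (detP 4 * m1 * m2) hg).2 f (fun t ht => ?_)).1 0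
  · rwa [zero_smul, add_zero] at key
  · rw [evm, evm] at ht
    have k1 := left_ne_zero_of_mul (left_ne_zero_of_mul ht)
    have k2 := right_ne_zero_of_mul (left_ne_zero_of_mul ht)
    have k3 := right_ne_zero_of_mul ht
    rw [hdet] at k1
    rw [v1] at k2
    rw [v2] at k3
    apply hf
    apply hYA _ (isUnit_iff_ne_zero.2 k1)
    · rw [e20, e31, e21, e30]
      exact hq t
    · rw [e00, e11, e01, e10]
      exact k2
    · rw [e20, e32, e22, e30]
      exact k3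

theorem T_YB (hYA : S_YA) (hLIN : S_LIN) : S_YB := by
  intro A hA hq
  -- reduction: choose the third column
  have main : ∀ a b c d : ℂ, (a ≠ 0 ∨ c ≠ 0) →
      (∀ t : ℂ, (A 2 0 + t * a) * (A 3 1 + t * d) - (A 2 1 + t * b) * (A 3 0 + t * c) = 0) →
      A ∈ Y 2 gam4 := by
    intro a b c d hac hqt
    rcases hac with h | h
    · exact YB_aux hYA hLIN A hA a b c d 0 1 hqt (by simpa using h)
    · exact YB_aux hYA hLIN A hA a b c d 1 0 hqt (by simpa using h)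
  by_cases h0 : A 2 0 = 0 ∧ A 3 0 = 0
  · obtain ⟨h1, h2⟩ := h0
    by_cases h3 : A 2 1 = 0 ∧ A 3 1 = 0
    · refine main 1 0 0 0 (Or.inl one_ne_zero) fun t => ?_
      rw [h1, h2, h3.1, h3.2]
      ring
    · refine main (A 2 1) 0 (A 3 1) 0 ?_ fun t => ?_
      · by_contra hcon
        push Not at hcon
        exact h3 hcon
      · rw [h1, h2]
        ring
  · refine main (A 2 0) (A 2 1) (A 3 0) (A 3 1) ?_ fun t => ?_
    · by_contra hcon
      push Not at hcon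
      exact h0 hcon
    · linear_combination (1 + t) ^ 2 * hq

end Pool.Agent.T2H41.CL
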