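import Pool.Agent.T2H41.CL.Stm

set_option autoImplicit false

namespace Pool.Agent.T2H41.CL

open MvPolynomial Matrix

namespace PkgYC

theorem isUnit_of_ne {a : ℂ} (h : a ≠ 0) : IsUnit a := isUnit_iff_ne_zero.mpr h

/-- the generic matrices are in the orbit -/
theorem orb (hREP : S_REP) (D : M 3) (hD : IsUnit D.det) (hw : D 2 0 ≠ 0)
    (hu : D 0 0 * D 1 1 - D 0 1 * D 1 0 ≠ 0) : D ∈ Orb 2 gam3 := by
  obtain ⟨-, -, -, hR, -, -, -, hRd⟩ := hREP
  set w := D 2 0 with hwdef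
  set Δ := D 0 0 * D 1 1 - D 0 1 * D 1 0 with hΔ
  set l := D 2 1 / w with hl
  set s0 := D 0 1 - l * D 0 0 with hs0
  set s1 := D 1 1 - l * D 1 0 with hs1
  have hdet : D 0 0 * s1 - s0 * D 1 0 = Δ := by rw [hs0, hs1, hΔ]; ring
  set μ := (D 0 2 * s1 - s0 * D 1 2) / Δ with hμ
  set ν := (D 0 0 * D 1 2 - D 0 2 * D 1 0) / Δ with hν
  set c0 := (μ + D 2 2 / w) / 2 with hc0
  set c2 := (μ - D 2 2 / w) / 2 with hc2
  let k : M 3 := !![D 0 0, s0, 0; D 1 0, s1, 0; 0, 0, w]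
  let b : M 3 := !![1, l, c0; 0, 1, ν; 0, 0, c2]
  have hkd : k.det = Δ * w := by
    rw [Matrix.det_fin_three]
    simp [k]
    rw [← hdet]; ring
  have e1 : c0 + c2 = μ := by rw [hc0, hc2]; ring
  have e2 : c0 - c2 = D 2 2 / w := by rw [hc0, hc2]; ring
  have e3 : D 0 0 * μ + s0 * ν = D 0 2 := by
    rw [hμ, hν]
    field_simp
    rw [← hdet]; ring
  have e4 : D 1 0 * μ + s1 * ν = D 1 2 := by
    rw [hμ, hν]
    field_simp
    rw [← hdet]; ring
  have hprod : D = k * rep 2 gam3 * b := by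
    rw [hR]
    ext i j
    fin_cases i <;> fin_cases j <;>
      simp [k, b, Matrix.mul_apply, Fin.sum_univ_succ]
    · rw [hs0]; ring
    · rw [← e3, ← e1]; ring
    · rw [hs1]; ring
    · rw [← e4, ← e1]; ring
    · rfl
    · rw [hl]; field_simp
    · have : w * (c0 - c2) = D 2 2 := by rw [e2]; field_simp
      rw [← this]; ring
  have hkK : IsK 2 k := by
    refine ⟨by rw [hkd]; exact isUnit_of_ne (mul_ne_zero hu hw), ?_⟩
    intro i j hij
    fin_cases i <;> fin_cases j <;> simp [k] at hij ⊢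
  have hbB : IsB b := by
    refine ⟨?_, ?_⟩
    · have h1 : D.det = k.det * (rep 2 gam3).det * b.det := by
        conv_lhs => rw [hprod]
        rw [Matrix.det_mul, Matrix.det_mul]
      rw [isUnit_iff_ne_zero] at hD ⊢
      intro h0
      apply hD
      rw [h1, h0, mul_zero]
    · intro i j hij
      fin_cases i <;> fin_cases j <;> simp [b] at hij ⊢
  exact ⟨k, b, hkK, hbB, hprod⟩

def N : M 3 := !![1, 0, 0; 0, 1, 0; 1, 0, 0]

end PkgYC

open PkgYC in
theorem T_YC (hREP : S_REP) (hLIN : S_LIN) : S_YC := by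
  intro D hD
  refine ⟨hD, ?_⟩
  intro f hf
  obtain ⟨hdetP, hl⟩ := hLIN
  -- the first use of LIN: avoid finitely many t
  have h0 : ∃ t : ℂ, ev (D + t • N) (detP 3) ≠ 0 := by
    refine ⟨0, ?_⟩
    rw [hdetP]
    simpa using hD.ne_zero
  obtain ⟨hav, -⟩ := hl 3 D N (detP 3) h0
  set q : Polynomial ℂ := (Polynomial.X + Polynomial.C (D 0 0)) * (Polynomial.X + Polynomial.C (D 1 1))
    - Polynomial.C (D 0 1 * D 1 0) with hq
  have hqev : ∀ t : ℂ, q.eval t = (t + D 0 0) * (t + D 1 1) - D 0 1 * D 1 0 := by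
    intro t; simp [hq]
  have hq0 : q ≠ 0 := by
    intro h
    have a1 := hqev 1
    have a2 := hqev (-1)
    have a3 := hqev 0
    rw [h, Polynomial.eval_zero] at a1 a2 a3
    have : (2 : ℂ) = 0 := by linear_combination (-1 : ℂ) * a1 - a2 + 2 * a3
    norm_num at this
  obtain ⟨t, htT, ht⟩ := hav (insert (-(D 2 0)) q.roots.toFinset)
  rw [Finset.mem_insert, not_or] at htT
  have ht1 : D 2 0 + t ≠ 0 := by
    intro h; apply htT.1; linear_combination h
  have ht2 : (D 0 0 + t) * (D 1 1 + t) - D 0 1 * D 1 0 ≠ 0 := by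
    intro h
    apply htT.2
    rw [Multiset.mem_toFinset, Polynomial.mem_roots hq0, Polynomial.IsRoot, hqev]
    rw [← h]; ring
  set g : P 3 := detP 3 * (X (2, 0) * (X (0, 0) * X (1, 1) - X (0, 1) * X (1, 0))) with hg
  have hgev : ∀ x : M 3, ev x g = x.det * (x 2 0 * (x 0 0 * x 1 1 - x 0 1 * x 1 0)) := by
    intro x
    rw [← hdetP]
    simp [hg, ev]
  have hNe : ∀ (t : ℂ), (D + t • N) 2 0 = D 2 0 + t ∧ (D + t • N) 0 0 = D 0 0 + t ∧
      (D + t • N) 1 1 = D 1 1 + t ∧ (D + t • N) 0 1 = D 0 1 ∧ (D + t • N) 1 0 = D 1 0 := by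
    intro t
    refine ⟨?_, ?_, ?_, ?_, ?_⟩ <;> simp [N]
  have hex : ∃ t : ℂ, ev (D + t • N) g ≠ 0 := by
    refine ⟨t, ?_⟩
    rw [hgev]
    rw [hdetP] at ht
    obtain ⟨n1, n2, n3, n4, n5⟩ := hNe t
    rw [n1, n2, n3, n4, n5]
    exact mul_ne_zero ht (mul_ne_zero ht1 ht2)
  obtain ⟨-, hlin⟩ := hl 3 D N g hex
  obtain ⟨hall, -⟩ := hlin f (by
    intro t ht
    apply hf
    rw [hgev] at ht
    have a1 := left_ne_zero_of_mul ht
    have a2 := right_ne_zero_of_mul ht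
    exact orb hREP _ (isUnit_of_ne a1) (left_ne_zero_of_mul a2) (right_ne_zero_of_mul a2))
  have := hall 0
  simpa using this

end Pool.Agent.T2H41.CL
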