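import Pool.Agent.T2H41.CL.Asm
import Pool.Agent.T2H41.CL.T_REP
import Pool.Agent.T2H41.CL.T_CLN
import Pool.Agent.T2H41.CL.T_STB
import Pool.Agent.T2H41.CL.T_VG
import Pool.Agent.T2H41.CL.T_LIN
import Pool.Agent.T2H41.CL.T_NF
import Pool.Agent.T2H41.CL.T_YA
import Pool.Agent.T2H41.CL.T_YB
import Pool.Agent.T2H41.CL.T_YC
import Pool.Agent.T2H41.CL.T_EML
import Pool.Agent.T2H41.CL.T_EMB
import Pool.Agent.T2H41.CL.T_EMA
import Pool.Agent.T2H41.CL.T_IND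
import Pool.Agent.T2H41.CL.T_EQV
import Pool.Agent.T2H41.CL.T_OPN
import Pool.Agent.T2H41.CL.T_IFT
import Pool.Agent.T2H41.CL.T_LA
import Pool.Agent.T2H41.CL.T_LNS
import Pool.Agent.T2H41.CL.T_BAS
import Pool.Agent.T2H41.CL.T_IRR

/-!
The final theorem of project CL.
-/

set_option autoImplicit false

namespace Pool.Agent.T2H41.CL

theorem fYB : S_YB := T_YB (T_YA T_REP) T_LIN
theorem fYC : S_YC := T_YC T_REP T_LIN
theorem fEQ : S_EQ := T_EQ (T_VG T_REP) T_NF fYB fYC (T_EMB T_EML T_REP) T_STB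
theorem fALF : S_ALF := T_ALF T_NF fYC (T_EMA T_EML T_REP) T_STB
theorem fFIN : S_FIN :=
  T_FIN T_REP T_IRR fEQ fALF T_STB T_LNS (T_BAS fEQ T_LIN T_OPN T_IFT T_LA T_IND T_LNS) T_EQV T_OPN T_IND

end Pool.Agent.T2H41.CL
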