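import Pool.Agent.T2H41.CL.Defs

/-!
# Project CL: MP_25f57f_ag, full disproof

`γ = 1 + - 1 2 + 2` and `α = + + - - 2 + 2` (`p = 4`, `q = 3`). The closure of the orbit of `γ` is a
bundle over `Gr (2, 4) × Gr (2, 3)` (position of `F_4 = (F_4 ∩ V+) + (F_4 ∩ V-)`) with the fibre
`Y (1+-1) × Y (2+2)`, so its singular locus is the bundle with the fibre `Sing (Y (1+-1)) × Y (2+2)`, which
is the closure of the orbit of `α`. But `α` has the arc (5, 7) which does not match adjacent vertices.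

Write an invertible matrix `x` of size 7 with the rows 0..3 (`V+`) and 4..6 (`V-`). In the open set
`hh x ≠ 0` the closure of the orbit of `γ` is given by the seven equations `eqs`: the upper left block
4 × 4 and the lower left block 3 × 4 have rank at most 2 (bordered minors), and
`x 4 0 * x 5 1 = x 4 1 * x 5 0`.
-/

set_option autoImplicit false

namespace Pool.Agent.T2H41.CL

open MvPolynomial Matrix

abbrev M (n : ℕ) : Type := Matrix (Fin n) (Fin n) ℂ
abbrev P (n : ℕ) : Type := MvPolynomial (Fin n × Fin n) ℂ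

noncomputable def d2 (r0 r1 c0 c1 : Fin 7) : P 7 := X (r0, c0) * X (r1, c1) - X (r0, c1) * X (r1, c0)
noncomputable def d3 (r0 r1 r2 c0 c1 c2 : Fin 7) : P 7 :=
  X (r0, c0) * d2 r1 r2 c1 c2 - X (r0, c1) * d2 r1 r2 c0 c2 + X (r0, c2) * d2 r1 r2 c0 c1
/-- the open set -/
noncomputable def hh : P 7 := d2 0 1 0 1 * d2 4 5 2 3
/-- the seven equations -/
noncomputable def eqs : Fin 7 → P 7 := ![d3 0 1 2 0 1 2, d3 0 1 3 0 1 2, d3 0 1 2 0 1 3, d3 0 1 3 0 1 3,
  d3 4 5 6 0 2 3, d3 4 5 6 1 2 3, d2 4 5 0 1]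
/-- the determinant as a polynomial -/
noncomputable def detP (n : ℕ) : P n := Matrix.det (fun i j : Fin n => (X (i, j) : P n))

/-- rows `0, 1, 4, 5` and columns `0, 1, 2, 3`: `A`; rows `2, 3, 6` and columns `4, 5, 6`: `D` -/
def emb (A : M 4) (D : M 3) : M 7 :=
  !![A 0 0, A 0 1, A 0 2, A 0 3, 0, 0, 0;
     A 1 0, A 1 1, A 1 2, A 1 3, 0, 0, 0;
     0, 0, 0, 0, D 0 0, D 0 1, D 0 2;
     0, 0, 0, 0, D 1 0, D 1 1, D 1 2;
     A 2 0, A 2 1, A 2 2, A 2 3, 0, 0, 0;
     A 3 0, A 3 1, A 3 2, A 3 3, 0, 0, 0;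
     0, 0, 0, 0, D 2 0, D 2 1, D 2 2]
/-- rows and columns `0, 1, 4, 5`: `A`; rows and columns `2, 3, 6`: `D` -/
def embK (A : M 4) (D : M 3) : M 7 :=
  !![A 0 0, A 0 1, 0, 0, A 0 2, A 0 3, 0;
     A 1 0, A 1 1, 0, 0, A 1 2, A 1 3, 0;
     0, 0, D 0 0, D 0 1, 0, 0, D 0 2;
     0, 0, D 1 0, D 1 1, 0, 0, D 1 2;
     A 2 0, A 2 1, 0, 0, A 2 2, A 2 3, 0;
     A 3 0, A 3 1, 0, 0, A 3 2, A 3 3, 0;
     0, 0, D 2 0, D 2 1, 0, 0, D 2 2]
/-- block diagonal matrix -/
def embB (A : M 4) (D : M 3) : M 7 :=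
  !![A 0 0, A 0 1, A 0 2, A 0 3, 0, 0, 0;
     A 1 0, A 1 1, A 1 2, A 1 3, 0, 0, 0;
     A 2 0, A 2 1, A 2 2, A 2 3, 0, 0, 0;
     A 3 0, A 3 1, A 3 2, A 3 3, 0, 0, 0;
     0, 0, 0, 0, D 0 0, D 0 1, D 0 2;
     0, 0, 0, 0, D 1 0, D 1 1, D 1 2;
     0, 0, 0, 0, D 2 0, D 2 1, D 2 2]
/-- the matrix of the clan `α` -/
def a0 : M 7 :=
  !![1, 0, 0, 0, 0, 0, 0;
     0, 1, 0, 0, 0, 0, 0;
     0, 0, 0, 0, 1, 0, 1;
     0, 0, 0, 0, 0, 1, 0;
     0, 0, 1, 0, 0, 0, 0;
     0, 0, 0, 1, 0, 0, 0;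
     0, 0, 0, 0, 1, 0, -1]

/-- REP (30 min). The matrices of the four clans. `simp [rep, gam, posA, posB, Opens, Arc, Fin.forall_fin_succ, ..]`
or: compute `posA gam i`, `posB gam i`, `Opens gam i`, `Arc gam i j` by `decide`, then `ext r i; fin_cases r <;>
fin_cases i`. The determinants are `± 2`, `± 4` or so (`Matrix.det_succ_row_zero`, or exhibit the inverse matrix). -/
def S_REP : Prop :=
  rep 4 gam = !![1, 0, 0, 1, 0, 0, 0;
     0, 1, 0, 0, 0, 0, 0;
     0, 0, 0, 0, 1, 0, 1;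
     0, 0, 0, 0, 0, 1, 0;
     1, 0, 0, -1, 0, 0, 0;
     0, 0, 1, 0, 0, 0, 0;
     0, 0, 0, 0, 1, 0, -1] ∧
  rep 4 alp = a0 ∧
  rep 2 gam4 = !![1, 0, 0, 1; 0, 1, 0, 0; 1, 0, 0, -1; 0, 0, 1, 0] ∧
  rep 2 gam3 = !![1, 0, 1; 0, 1, 0; 1, 0, -1] ∧
  IsUnit (rep 4 gam).det ∧ IsUnit (rep 4 alp).det ∧ IsUnit (rep 2 gam4).det ∧ IsUnit (rep 2 gam3).det

/-- CLN (15 min). `gam`, `alp` are clans and `(4, 6)` is an arc of `alp`. (By cases: `decide` does not work directly
because of the natural number `k`; use `fin_cases i` and `Letter.num.injEq`.) -/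
def S_CLN : Prop := IsClan 4 3 gam ∧ IsClan 4 3 alp ∧ Arc alp 4 6

/-- STB (30 min). Closures of orbits are stable. Proof: for a polynomial `f` vanishing on the orbit, the polynomial
`f (k z b)` in the entries of `z` (`MvPolynomial.bind₁`) vanishes on the orbit, because `IsK`, `IsB` are closed under
products. -/
def S_STB : Prop := ∀ (n p : ℕ) (γ : Str n),
  (∀ k b x : M n, IsK p k → IsB b → x ∈ Y p γ → k * x * b ∈ Y p γ) ∧
  (∀ k b x : M n, IsK p k → IsB b → k * x * b ∈ Y p γ → x ∈ Y p γ) ∧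
  (IsUnit (rep p γ).det → Orb p γ ⊆ Y p γ ∧ rep p γ ∈ Orb p γ)

/-- VG (30 min, from REP). The equations vanish on the orbit of `γ`. Proof: if `x = k g b`, `g = rep 4 gam`, then for
`r, c < 4` we have `x r c = k r 0 * (b 0 c + b 3 c) + k r 1 * b 1 c`, and for `r ≥ 4`, `c < 4`
`x r c = k r 4 * (b 0 c - b 3 c) + k r 5 * b 2 c`, where `b i j = 0` for `j < i`; then `ring`. -/
def S_VG : Prop := ∀ x ∈ Orb 4 gam, ∀ i, ev x (eqs i) = 0

/-- LIN (30 min). Restriction of polynomials to lines: `t ↦ ev (A + t D) f` is a polynomial in `t`; it vanishes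
identically if it vanishes outside of the zeros of a nonzero polynomial; its derivative at `0` is the sum. Also the
value of `detP`. -/
def S_LIN : Prop := (∀ (n : ℕ) (x : M n), ev x (detP n) = x.det) ∧
  ∀ (n : ℕ) (A D : M n) (g : P n), (∃ t : ℂ, ev (A + t • D) g ≠ 0) →
    (∀ T : Finset ℂ, ∃ t ∉ T, ev (A + t • D) g ≠ 0) ∧
    ∀ f : P n, (∀ t : ℂ, ev (A + t • D) g ≠ 0 → ev (A + t • D) f = 0) →
      (∀ t : ℂ, ev (A + t • D) f = 0) ∧ ∑ s, ev A (pderiv s f) * D s.1 s.2 = 0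

/-- NF (60 min). Normal form. Proof: let `L` be the 2 × 2 matrix with `x i c = ∑ L i j * x j c` for `i = 2, 3`, `j = 0, 1`,
`c = 0, 1` (Cramer, `x 0 0 * x 1 1 - x 0 1 * x 1 0 ≠ 0`); by the first four equations this holds for `c = 2, 3` too.
Similarly `x 6 c = R 0 * x 4 c + R 1 * x 5 c` for `c = 2, 3`, and by the next two equations for `c = 0, 1`. Let `k` be the
matrix which adds `L` times the rows `0, 1` to the rows `2, 3` and `R` times the rows `4, 5` to the row `6`
(unipotent, in `K`), and `y = k⁻¹ x`; then `y` has the rows `2, 3, 6` equal to zero in the first four columns, `A` and `D`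
are the blocks of `y`, `det y = ± det A * det D`, and with `E` the block of `y` with the rows `0, 1, 4, 5` and the columns
`4, 5, 6`, `b = (1, A⁻¹ E; 0, 1)`. The rows `4, 5` of `x` and `y` agree. -/
def S_NF : Prop := ∀ x : M 7, IsUnit x.det → ev x hh ≠ 0 → (∀ i : Fin 7, i ≠ 6 → ev x (eqs i) = 0) →
  ∃ (k b : M 7) (A : M 4) (D : M 3), IsK 4 k ∧ IsB b ∧ IsUnit A.det ∧ IsUnit D.det ∧
    x = k * emb A D * b ∧ A 2 0 = x 4 0 ∧ A 2 1 = x 4 1 ∧ A 3 0 = x 5 0 ∧ A 3 1 = x 5 1

/-- YA (50 min, from REP). The generic points of `Y (1+-1)`. Proof: let the columns be `a_j = (u_j; w_j)`,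
`u_j, w_j ∈ ℂ²`. As `w_0 ≠ 0` and `det (w_0, w_1) = 0`: `w_1 = λ w_0`, and with `s = u_1 - λ u_0`:
`a_1 = λ a_0 + (s; 0)`, `det (u_0, s) = det (u_0, u_1) ≠ 0`. Then `u_2 = μ u_0 + ν s`, `r = w_2 - μ w_0`,
`det (w_0, r) ≠ 0`, `a_2 = μ a_0 + ν (s; 0) + (0; r)`. Take for `k` the matrix with the columns
`(u_0; 0), (s; 0), (0; w_0), (0; r)`, then `k * rep` has the columns `a_0, (s; 0), (0; r), (u_0; - w_0)`, it is
invertible, and `b = (k * rep)⁻¹ A` is upper triangular: its first columns are `(1,0,0,0), (λ,1,0,0), (μ,ν,1,0)`. -/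
def S_YA : Prop := ∀ A : M 4, IsUnit A.det → A 2 0 * A 3 1 - A 2 1 * A 3 0 = 0 →
  A 0 0 * A 1 1 - A 0 1 * A 1 0 ≠ 0 → A 2 0 * A 3 2 - A 2 2 * A 3 0 ≠ 0 → A ∈ Orb 2 gam4

/-- YB (45 min, from YA, LIN). Proof: by LIN it is enough to find a matrix `D` such that
`q (A + t D) = 0` for all `t` (`q` the 2 × 2 minor of the assumption) and such that the two minors of YA of `A + t D`
and `det (A + t D)` are not zero for some `t` (each of them is a nonzero polynomial in `t`, the set of its zeros is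
finite). Let `w_0, w_1` be the lower halves of the first two columns. If `w_0 ≠ 0` then `w_1 = λ w_0`: let the lower halves
of the first two columns of `D` be `w_0, w_1` (so that `w_j (t) = (1 + t) w_j`); if `w_0 = 0`, `w_1 ≠ 0`: `w_1, 0`;
if both are zero: `(1, 0), 0`. Upper halves of the first two columns of `D`: `(1, 0), (0, 1)`. Let the lower half `z` of the
third column of `D` be such that with the lower half `w` of the first column of `D` one has `det (w, z) ≠ 0`; the other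
entries of `D` are zero. The minors have degree two in `t` with leading coefficients `1` and `det (w, z)`. -/
def S_YB : Prop := ∀ A : M 4, IsUnit A.det → A 2 0 * A 3 1 - A 2 1 * A 3 0 = 0 → A ∈ Y 2 gam4

/-- YC (50 min, from REP, LIN). `Y (2+2)` is everything. Proof: let the columns be `(u_j; w_j)`, `u_j ∈ ℂ²`, `w_j ∈ ℂ`. If
`w_0 ≠ 0`, `det (u_0, u_1) ≠ 0`, then with `s = u_1 - (w_1 / w_0) u_0` the matrix `k` with the columns
`(u_0; 0), (s; 0), (0; w_0)` is in `K`, and `b = (k * rep)⁻¹ D` is upper triangular as in YA. In general use LIN on the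
line `D + t N`, `N` with the entries `1` at `(0, 0), (1, 1), (2, 0)` and `0` otherwise. -/
def S_YC : Prop := ∀ D : M 3, IsUnit D.det → D ∈ Y 2 gam3

/-- EML (45 min). The embeddings are compatible with products (`ext i j; fin_cases i <;> fin_cases j`, with
`Matrix.mul_apply`, `Fin.sum_univ_succ`), and determinants (`det (emb A D) = ± det A * det D`, for instance by writing
`emb A D = Pm * embB A D` with the permutation matrix `Pm`, and `embK A D = Pm * embB A D * Pm⁻¹`). -/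
def S_EML : Prop :=
  (∀ (k A b : M 4) (k' D b' : M 3), emb (k * A * b) (k' * D * b') = embK k k' * emb A D * embB b b') ∧
  (∀ (k : M 4) (k' : M 3), IsK 2 k → IsK 2 k' → IsK 4 (embK k k')) ∧
  (∀ (b : M 4) (b' : M 3), IsB b → IsB b' → IsB (embB b b')) ∧
  (∀ (A : M 4) (D : M 3), IsUnit (emb A D).det ↔ IsUnit A.det ∧ IsUnit D.det)

/-- EMB (45 min, from EML, REP). Proof: `rep 4 gam = emb (rep 2 gam4) (rep 2 gam3)`. Let `f` vanish on the orbit of
`gam`. For `D` in the orbit of `gam3`, the polynomial `A ↦ f (emb A D)` (`bind₁`) vanishes on the orbit of `gam4`, so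
also on its closure; then for `A` in the closure the polynomial `D ↦ f (emb A D)` vanishes on the orbit of `gam3`. -/
def S_EMB : Prop := ∀ (A : M 4) (D : M 3), A ∈ Y 2 gam4 → D ∈ Y 2 gam3 → emb A D ∈ Y 4 gam

/-- EMA (40 min, from EML, REP). The same for `alp`: `rep 4 alp = emb 1 (rep 2 gam3)`, and
`A = (a, e; 0, c) = diag (a, c) * (1, a⁻¹ e; 0, 1)` is in `K * B` (blocks of size two). -/
def S_EMA : Prop := ∀ (A : M 4) (D : M 3), IsUnit A.det → A 2 0 = 0 → A 2 1 = 0 → A 3 0 = 0 → A 3 1 = 0 →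
  D ∈ Y 2 gam3 → emb A D ∈ Y 4 alp

/-- IND (40 min). The differentials of the seven equations are independent. Proof: `eqs 0, 1, 2, 3` are the only
equations containing `X (2, 2), X (3, 2), X (2, 3), X (3, 3)` respectively, with the coefficient `d2 0 1 0 1` (value not
zero); `eqs 4, 5` the only ones containing `X (6, 0), X (6, 1)`, with the coefficient `± d2 4 5 2 3`; so all coefficients of
a relation are zero except for the last one, and the differential of `d2 4 5 0 1` is not zero. -/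
def S_IND : Prop := ∀ x : M 7, ev x hh ≠ 0 → ¬ (x 4 0 = 0 ∧ x 4 1 = 0 ∧ x 5 0 = 0 ∧ x 5 1 = 0) →
  LinearIndependent ℂ (fun (i : Fin 7) (s : Fin 7 × Fin 7) => ev x (pderiv s (eqs i)))

/-- EQV (50 min). Nonsingularity is preserved by `z ↦ k z b`. Proof: substitute `k⁻¹ z b⁻¹` in the equations (`bind₁`, a
linear change of the variables; chain rule for `pderiv`, the differentials are transformed by an invertible matrix). -/
def S_EQV : Prop := ∀ (n : ℕ) (Z : Set (M n)) (k b : M n), IsUnit k.det → IsUnit b.det →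
  (∀ z, z ∈ Z ↔ k * z * b ∈ Z) → ∀ x, Nonsing Z x → Nonsing Z (k * x * b)

/-- OPN (35 min). Independence of differentials is an open condition: some `c × c` minor is not zero. -/
def S_OPN : Prop := ∀ (n c : ℕ) (f : Fin c → P n) (x : M n),
  LinearIndependent ℂ (fun (i : Fin c) (s : Fin n × Fin n) => ev x (pderiv s (f i))) →
  ∃ g : P n, ev x g ≠ 0 ∧ ∀ z : M n, ev z g ≠ 0 →
    LinearIndependent ℂ (fun (i : Fin c) (s : Fin n × Fin n) => ev z (pderiv s (f i)))

/-- IFT (60 min). Implicit function theorem: the map `F = (f i)` has a surjective derivative at `z`, so for `v` in its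
kernel there is a curve `φ (t) = z + t v + o (t)` with `F (φ (t)) = 0` (Mathlib:
`HasStrictFDerivAt.implicitFunction`, `HasStrictFDerivAt.to_implicitFunction`). For small `t` the determinant and `h` are
not zero at `φ (t)`, so `e (φ (t)) = 0`; derive at `0`. -/
def S_IFT : Prop := ∀ (n c : ℕ) (f : Fin c → P n) (h e : P n) (z : M n), IsUnit z.det → ev z h ≠ 0 →
  (∀ i, ev z (f i) = 0) →
  LinearIndependent ℂ (fun (i : Fin c) (s : Fin n × Fin n) => ev z (pderiv s (f i))) →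
  (∀ w : M n, IsUnit w.det → ev w h ≠ 0 → (∀ i, ev w (f i) = 0) → ev w e = 0) →
  ∀ v : Fin n × Fin n → ℂ, (∀ i, ∑ s, ev z (pderiv s (f i)) * v s = 0) → ∑ s, ev z (pderiv s e) * v s = 0

/-- LA (30 min). Linear algebra. -/
def S_LA : Prop := ∀ (n c m : ℕ) (f : Fin c → Fin n × Fin n → ℂ),
  (∀ e : Fin m → Fin n × Fin n → ℂ, LinearIndependent ℂ e →
    (∀ v : Fin n × Fin n → ℂ, (∀ i, ∑ s, f i s * v s = 0) → ∀ j, ∑ s, e j s * v s = 0) → m ≤ c) ∧
  (LinearIndependent ℂ f → ∀ T : Finset (Fin n × Fin n), (∀ i, ∀ s ∉ T, f i s = 0) → c ≤ T.card)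

/-- the coordinates of the directions which are not tangent -/
def Excl : Finset (Fin 7 × Fin 7) := {(6, 0), (6, 1), (2, 2), (2, 3), (3, 2), (3, 3)}

/-- LNS (30 min). Lines through `a0` in the zero set of the equations: 43 coordinate directions (finite check; only the
first four columns matter). -/
def S_LNS : Prop := ev a0 hh ≠ 0 ∧ IsUnit a0.det ∧ (∀ t : ℂ, (a0 + t • Matrix.single (4 : Fin 7) (0 : Fin 7) (1 : ℂ)) 4 0 = t) ∧
  ∀ s : Fin 7 × Fin 7, s ∉ Excl → ∀ (t : ℂ) (i : Fin 7), ev (a0 + t • Matrix.single s.1 s.2 (1 : ℂ)) (eqs i) = 0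

/-- EQ (15 min, from VG, NF, YB, YC, EMB, STB). -/
def S_EQ : Prop := ∀ x : M 7, IsUnit x.det → ev x hh ≠ 0 → (x ∈ Y 4 gam ↔ ∀ i, ev x (eqs i) = 0)

/-- ALF (15 min, from NF, EMA, YC, STB). -/
def S_ALF : Prop := ∀ x : M 7, IsUnit x.det → ev x hh ≠ 0 → (∀ i, ev x (eqs i) = 0) →
  x 4 0 = 0 → x 4 1 = 0 → x 5 0 = 0 → x 5 1 = 0 → x ∈ Y 4 alp

/-- BAS (50 min, from EQ, LIN, OPN, IFT, LA, IND, LNS). The point `a0` is singular. Proof: assume that `f 0, …, f (c-1)`, `h`
describe `Y 4 gam` near `a0`. (1) `c ≤ 6`: for the 43 coordinates `s ∉ Excl` the points `a0 + t E_s` are in `Y 4 gam` for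
all `t` with `det ≠ 0`, `hh ≠ 0` (EQ, LNS), so by LIN (with `g = detP 7 * hh * h`) `∂ f_i / ∂ x_s = 0` at `a0`; then
LA. (2) `7 ≤ c`: let `g` be the polynomial of OPN for `f` at `a0`. By LIN there is a `t ≠ 0` such that
`z = a0 + t E_(4,0)` has `det z, hh z, h z, g z` not zero. Then `z ∈ Y 4 gam`, `z 4 0 = t ≠ 0`, so the seven differentials
of `eqs` at `z` are independent (IND) and vanish on the kernel of the differentials of the `f i` (IFT with
`h * hh` in place of `h`, by EQ). By LA `7 ≤ c`. -/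
def S_BAS : Prop := ¬ Nonsing (Y 4 gam) a0

/-- IRR (60 min). The closure of an orbit is irreducible. Proof: `f g` vanishes on the orbit. Let `κ (A)`, `β (C)` be the
matrices `A`, `C` with the entries outside of `K`, `B` replaced by zero. The polynomials
`det κ (A)`, `det β (C)`, `f (κ (A) * rep * β (C))`, `g (κ (A) * rep * β (C))` in the entries of `A` and `C` have the
product zero (`MvPolynomial.funext`), so one of them is zero; the first two are `1` at `A = C = 1`. -/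
def S_IRR : Prop := ∀ (n p : ℕ) (γ : Str n), IsUnit (rep p γ).det → IsIrr (Y p γ)

/-- FIN (helper41). -/
def S_FIN : Prop := IsComponent (Y 4 alp) (SingLocus 4 gam)

end Pool.Agent.T2H41.CL
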