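import Pool.Agent.T2H41.CL.Stm

set_option autoImplicit false

namespace Pool.Agent.T2H41.CL

open MvPolynomial Matrix

namespace PkgIND

theorem ev_hh (x : M 7) : ev x hh = (x 0 0 * x 1 1 - x 0 1 * x 1 0) * (x 4 2 * x 5 3 - x 4 3 * x 5 2) := by
  simp [ev, hh, d2]

end PkgIND

open PkgIND in
theorem T_IND : S_IND := by
  intro x hx hne
  rw [ev_hh] at hx
  have hA : x 0 0 * x 1 1 - x 0 1 * x 1 0 ≠ 0 := fun h => hx (by rw [h, zero_mul])
  have hB : x 4 2 * x 5 3 - x 4 3 * x 5 2 ≠ 0 := fun h => hx (by rw [h, mul_zero])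
  rw [Fintype.linearIndependent_iff]
  intro g hg
  have key : ∀ s, ∑ i, g i * ev x (pderiv s (eqs i)) = 0 := fun s => by
    have := congrFun hg s
    simpa [Finset.sum_apply, Pi.smul_apply, smul_eq_mul] using this
  have h0 : g 0 = 0 := by
    have h := key (2, 2)
    simp [Fin.sum_univ_succ, eqs, d3, d2, ev, pderiv_X] at h
    rcases h with h | h
    · exact h
    · exact absurd h hA
  have h1 : g 1 = 0 := by
    have h := key (3, 2)
    simp [Fin.sum_univ_succ, eqs, d3, d2, ev, pderiv_X] at h
    rcases h with h | h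
    · exact h
    · exact absurd h hA
  have h2 : g 2 = 0 := by
    have h := key (2, 3)
    simp [Fin.sum_univ_succ, eqs, d3, d2, ev, pderiv_X] at h
    rcases h with h | h
    · exact h
    · exact absurd h hA
  have h3 : g 3 = 0 := by
    have h := key (3, 3)
    simp [Fin.sum_univ_succ, eqs, d3, d2, ev, pderiv_X] at h
    rcases h with h | h
    · exact h
    · exact absurd h hA
  have h4 : g 4 = 0 := by
    have h := key (6, 0)
    simp [Fin.sum_univ_succ, eqs, d3, d2, ev, pderiv_X] at h
    rcases h with h | h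
    · exact h
    · exact absurd h hB
  have h5 : g 5 = 0 := by
    have h := key (6, 1)
    simp [Fin.sum_univ_succ, eqs, d3, d2, ev, pderiv_X] at h
    rcases h with h | h
    · exact h
    · exact absurd h hB
  have h6 : g 6 = 0 := by
    by_contra hg6
    apply hne
    have k1 := key (4, 0)
    have k2 := key (4, 1)
    have k3 := key (5, 0)
    have k4 := key (5, 1)
    simp [Fin.sum_univ_succ, eqs, d3, d2, ev, pderiv_X] at k1 k2 k3 k4
    rw [h4, zero_mul, zero_add] at k1 k3
    rw [h5, zero_mul, zero_add] at k2 k4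
    refine ⟨?_, ?_, ?_, ?_⟩
    · exact (mul_eq_zero.mp k4).resolve_left hg6
    · exact (mul_eq_zero.mp (neg_eq_zero.mp k3)).resolve_left hg6
    · exact (mul_eq_zero.mp (neg_eq_zero.mp k2)).resolve_left hg6
    · exact (mul_eq_zero.mp k1).resolve_left hg6
  intro i
  fin_cases i <;> assumption

end Pool.Agent.T2H41.CL
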